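import Pool.Agent.Q64.CY.Gcd3

/-!
# Short returns of the `3 x + k` maps modulo `k`
-/

set_option autoImplicit false

namespace Q64.CY

open Finset Filter Topology

/-- the `3x+k` map -/
def T (k x : ℤ) : ℤ := if x % 2 = 0 then x / 2 else (3 * x + k) / 2

/-- the number of odd integers among the first `n` terms of the orbit of `x` -/
def odds (k : ℤ) (n : ℕ) (x : ℤ) : ℕ := ((range n).filter fun i => ((T k)^[i] x) % 2 ≠ 0).card

lemma odds_le (k : ℤ) (n : ℕ) (x : ℤ) : odds k n x ≤ n := by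
  unfold odds
  refine (card_filter_le _ _).trans ?_
  rw [card_range]

lemma odds_succ (k : ℤ) (n : ℕ) (x : ℤ) :
    odds k (n + 1) x = odds k n x + if ((T k)^[n] x) % 2 = 0 then 0 else 1 := by
  unfold odds
  rw [range_add_one, filter_insert]
  by_cases h : ((T k)^[n] x) % 2 = 0
  · rw [if_pos h, if_neg (by simpa using h), add_zero]
  · rw [if_neg h, if_pos h, card_insert_of_notMem (by simp)]

lemma two_T {k : ℤ} (hk : k % 2 = 1) (x : ℤ) :
    2 * T k x ≡ (if x % 2 = 0 then 1 else 3) * x [ZMOD k] := by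
  unfold T
  split_ifs with h
  · have : 2 * (x / 2) = x := by omega
    rw [this, one_mul]
  · have : 2 * ((3 * x + k) / 2) = 3 * x + k := by omega
    rw [this]
    exact (Int.modEq_iff_dvd.2 ⟨-1, by ring⟩)

lemma pow_T {k : ℤ} (hk : k % 2 = 1) (x : ℤ) (n : ℕ) :
    2 ^ n * (T k)^[n] x ≡ 3 ^ odds k n x * x [ZMOD k] := by
  induction n with
  | zero => simp [odds]
  | succ n ih =>
    rw [Function.iterate_succ_apply', odds_succ]
    set y := (T k)^[n] x with hy
    have h1 := two_T hk y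
    calc (2 : ℤ) ^ (n + 1) * T k y = 2 ^ n * (2 * T k y) := by ring
      _ ≡ 2 ^ n * ((if y % 2 = 0 then 1 else 3) * y) [ZMOD k] := h1.mul_left _
      _ = (if y % 2 = 0 then 1 else 3) * (2 ^ n * y) := by ring
      _ ≡ (if y % 2 = 0 then 1 else 3) * (3 ^ odds k n x * x) [ZMOD k] := ih.mul_left _
      _ = 3 ^ (odds k n x + if y % 2 = 0 then 0 else 1) * x := by
        split_ifs <;> ring

/-- a return modulo `k` after `n` steps -/
lemma return_dvd {k : ℤ} (hk : k % 2 = 1) {x : ℤ} {n : ℕ} (h : (T k)^[n] x ≡ x [ZMOD k]) :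
    ((k.natAbs / Nat.gcd x.natAbs k.natAbs : ℕ) : ℤ) ∣ (2 : ℤ) ^ n - 3 ^ odds k n x := by
  have hk0 : k ≠ 0 := by rintro rfl; simp at hk
  have h1 := pow_T hk x n
  have h2 : (2 : ℤ) ^ n * x ≡ 3 ^ odds k n x * x [ZMOD k] := (h.symm.mul_left _).trans h1
  have h3 : k ∣ (2 ^ n - 3 ^ odds k n x) * x := by
    have := (Int.modEq_iff_dvd.1 h2.symm)
    rwa [← sub_mul] at this
  have h4 : k.natAbs ∣ ((2 : ℤ) ^ n - 3 ^ odds k n x).natAbs * x.natAbs := by
    rw [← Int.natAbs_mul]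
    exact Int.natAbs_dvd_natAbs.2 h3
  set g := Nat.gcd x.natAbs k.natAbs with hg
  have hgpos : 0 < g := Nat.gcd_pos_of_pos_right _ (Int.natAbs_pos.2 hk0)
  have h5 : k.natAbs / g ∣ ((2 : ℤ) ^ n - 3 ^ odds k n x).natAbs * (x.natAbs / g) := by
    have hgk : g ∣ k.natAbs := Nat.gcd_dvd_right _ _
    have hgx : g ∣ x.natAbs := Nat.gcd_dvd_left _ _
    have h6 : g * (k.natAbs / g) ∣ g * (((2 : ℤ) ^ n - 3 ^ odds k n x).natAbs * (x.natAbs / g)) := by
      rw [Nat.mul_div_cancel' hgk]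
      have e : g * (((2 : ℤ) ^ n - 3 ^ odds k n x).natAbs * (x.natAbs / g)) =
          ((2 : ℤ) ^ n - 3 ^ odds k n x).natAbs * x.natAbs := by
        rw [mul_left_comm, Nat.mul_div_cancel' hgx]
      rw [e]
      exact h4
    exact Nat.dvd_of_mul_dvd_mul_left hgpos h6
  have hcop : Nat.Coprime (k.natAbs / g) (x.natAbs / g) := by
    have := Nat.coprime_div_gcd_div_gcd (m := x.natAbs) (n := k.natAbs) hgpos
    exact this.symm
  have h6 : k.natAbs / g ∣ ((2 : ℤ) ^ n - 3 ^ odds k n x).natAbs :=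
    hcop.dvd_of_dvd_mul_right h5
  exact Int.natCast_dvd.2 h6

lemma coprime_two_three {k : ℤ} (hk2 : k % 2 = 1) (hk3 : ¬ (3 : ℤ) ∣ k) {D : ℕ}
    (hD : D ∣ k.natAbs) : Nat.Coprime D 2 ∧ Nat.Coprime D 3 := by
  constructor
  · apply Nat.Coprime.symm
    rw [Nat.Prime.coprime_iff_not_dvd Nat.prime_two]
    intro h
    have h1 : 2 ∣ k.natAbs := h.trans hD
    omega
  · apply Nat.Coprime.symm
    rw [Nat.Prime.coprime_iff_not_dvd Nat.prime_three]
    intro h
    have h1 : 3 ∣ k.natAbs := h.trans hD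
    exact hk3 (Int.natCast_dvd.2 h1)

/-- two returns modulo `k` -/
theorem two_returns (K ε : ℝ) (hK : 0 < K) (hε : 0 < ε) :
    ∃ k₀ : ℝ, ∀ k : ℤ, k % 2 = 1 → ¬ (3 : ℤ) ∣ k → k₀ ≤ |(k : ℝ)| →
      ∀ (x y : ℤ) (n n' : ℕ), (n : ℝ) ≤ K * Real.log |(k : ℝ)| → (n' : ℝ) ≤ K * Real.log |(k : ℝ)| →
      (T k)^[n] x ≡ x [ZMOD k] → (T k)^[n'] y ≡ y [ZMOD k] →
      ((Int.gcd x k * Int.gcd y k : ℕ) : ℝ) ≤ |(k : ℝ)| ^ (1 - ε) →
      n * odds k n' y = n' * odds k n x := by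
  obtain ⟨N0, hN0⟩ := gcd_small (p := 2) (q := 3) le_rfl (by norm_num) (by norm_num)
    (ε := ε / K) (by positivity)
  refine ⟨Real.exp (N0 / K), fun k hk2 hk3 hk x y n n' hn hn' hx hy hg => ?_⟩
  by_contra hne
  have hk0 : k ≠ 0 := by rintro rfl; simp at hk2
  have hkr : (0 : ℝ) < |(k : ℝ)| := abs_pos.2 (by exact_mod_cast hk0)
  have hlog : N0 / K ≤ Real.log |(k : ℝ)| := (Real.le_log_iff_exp_le hkr).2 hk
  have hN : N0 ≤ K * Real.log |(k : ℝ)| := by
    rw [div_le_iff₀ hK] at hlog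
    linarith
  set g := Nat.gcd x.natAbs k.natAbs with hgd
  set g' := Nat.gcd y.natAbs k.natAbs with hgd'
  have hgpos : 0 < g := Nat.gcd_pos_of_pos_right _ (Int.natAbs_pos.2 hk0)
  have hgpos' : 0 < g' := Nat.gcd_pos_of_pos_right _ (Int.natAbs_pos.2 hk0)
  have hgk : g ∣ k.natAbs := Nat.gcd_dvd_right _ _
  have hgk' : g' ∣ k.natAbs := Nat.gcd_dvd_right _ _
  set D := Nat.gcd (k.natAbs / g) (k.natAbs / g') with hD
  have hDk : D ∣ k.natAbs := (Nat.gcd_dvd_left _ _).trans (Nat.div_dvd_of_dvd hgk)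
  obtain ⟨hD2, hD3⟩ := coprime_two_three hk2 hk3 hDk
  have h1 := return_dvd hk2 hx
  have h2 := return_dvd hk2 hy
  have h3 : (D : ℤ) ∣ ((2 : ℕ) : ℤ) ^ n - ((3 : ℕ) : ℤ) ^ odds k n x := by
    refine Dvd.dvd.trans ?_ h1
    exact_mod_cast Nat.gcd_dvd_left _ _
  have h4 : (D : ℤ) ∣ ((2 : ℕ) : ℤ) ^ n' - ((3 : ℕ) : ℤ) ^ odds k n' y := by
    refine Dvd.dvd.trans ?_ h2
    exact_mod_cast Nat.gcd_dvd_right _ _
  have hm : (odds k n x : ℝ) ≤ K * Real.log |(k : ℝ)| :=
    le_trans (by exact_mod_cast odds_le k n x) hn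
  have hm' : (odds k n' y : ℝ) ≤ K * Real.log |(k : ℝ)| :=
    le_trans (by exact_mod_cast odds_le k n' y) hn'
  have h5 := hN0 _ hN n (odds k n x) n' (odds k n' y) D hn hm hn' hm' hne h3 h4 hD2 hD3
  have h6 : ε / K * (K * Real.log |(k : ℝ)|) = ε * Real.log |(k : ℝ)| := by field_simp
  rw [h6] at h5
  -- lower bound for `D`
  have h7 : k.natAbs ≤ D * (g * g') := by
    have e1 : D * (g * g') = Nat.gcd (k.natAbs * g') (k.natAbs * g) := by
      rw [hD, ← Nat.gcd_mul_right]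
      congr 1
      · rw [← mul_assoc, Nat.div_mul_cancel hgk]
      · rw [mul_comm g g', ← mul_assoc, Nat.div_mul_cancel hgk']
    rw [e1, Nat.gcd_mul_left]
    exact Nat.le_mul_of_pos_right _ (Nat.gcd_pos_of_pos_left _ hgpos')
  have h8 : |(k : ℝ)| ≤ (D : ℝ) * ((g * g' : ℕ) : ℝ) := by
    have : ((k.natAbs : ℕ) : ℝ) ≤ ((D * (g * g') : ℕ) : ℝ) := by exact_mod_cast h7
    rw [Nat.cast_mul] at this
    rwa [Nat.cast_natAbs, Int.cast_abs] at this
  have hDpos : (0 : ℝ) < D := by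
    have h9 : 0 < D := Nat.gcd_pos_of_pos_left _
      (Nat.div_pos (Nat.le_of_dvd (Int.natAbs_pos.2 hk0) hgk) hgpos)
    exact_mod_cast h9
  have hggpos : (0 : ℝ) < ((g * g' : ℕ) : ℝ) := by exact_mod_cast Nat.mul_pos hgpos hgpos'
  have h9 := Real.log_le_log hkr h8
  rw [Real.log_mul hDpos.ne' hggpos.ne'] at h9
  have h10 : Real.log ((g * g' : ℕ) : ℝ) ≤ (1 - ε) * Real.log |(k : ℝ)| := by
    have h11 := Real.log_le_log hggpos hg
    rwa [Real.log_rpow hkr] at h11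
  linarith

/-- the returns modulo `k` of the integers prime to `k` -/
theorem primitive_returns (K : ℝ) (hK : 0 < K) :
    ∃ k₀ : ℝ, ∀ k : ℤ, k % 2 = 1 → ¬ (3 : ℤ) ∣ k → k₀ ≤ |(k : ℝ)| →
      ∃ a b : ℕ, Real.log |(k : ℝ)| ≤ a * Real.log 3 ∧ b ≤ a ∧ ∀ (x : ℤ) (n : ℕ), IsCoprime x k →
        (n : ℝ) ≤ K * Real.log |(k : ℝ)| → (T k)^[n] x ≡ x [ZMOD k] →
        ∃ j : ℕ, n = j * a ∧ odds k n x = j * b := by
  classical
  obtain ⟨N0, hN0⟩ := gcd_small (p := 2) (q := 3) le_rfl (by norm_num) (by norm_num)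
    (ε := 1 / K) (by positivity)
  refine ⟨Real.exp (N0 / K), fun k hk2 hk3 hk => ?_⟩
  have hk0 : k ≠ 0 := by rintro rfl; simp at hk2
  have hkr : (0 : ℝ) < |(k : ℝ)| := abs_pos.2 (by exact_mod_cast hk0)
  have hkabs : ((k.natAbs : ℕ) : ℝ) = |(k : ℝ)| := by rw [Nat.cast_natAbs, Int.cast_abs]
  have hlog : N0 / K ≤ Real.log |(k : ℝ)| := (Real.le_log_iff_exp_le hkr).2 hk
  have hN : N0 ≤ K * Real.log |(k : ℝ)| := by
    rw [div_le_iff₀ hK] at hlog
    linarith
  obtain ⟨hc2, hc3⟩ := coprime_two_three hk2 hk3 (dvd_refl k.natAbs)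
  set R : ℕ → Prop := fun n => 1 ≤ n ∧ (n : ℝ) ≤ K * Real.log |(k : ℝ)| ∧
    ∃ m ≤ n, (k.natAbs : ℤ) ∣ (2 : ℤ) ^ n - 3 ^ m with hR
  have hret : ∀ (x : ℤ) (n : ℕ), IsCoprime x k → (T k)^[n] x ≡ x [ZMOD k] →
      (k.natAbs : ℤ) ∣ (2 : ℤ) ^ n - 3 ^ odds k n x := by
    intro x n hx h
    have h1 := return_dvd hk2 h
    have h2 : Nat.gcd x.natAbs k.natAbs = 1 := Int.isCoprime_iff_gcd_eq_one.1 hx
    rwa [h2, Nat.div_one] at h1
  have hlog3 : 0 < Real.log 3 := Real.log_pos (by norm_num)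
  by_cases hex : ∃ n, R n
  · have hspec := Nat.find_spec hex
    have hmin : ∀ r, R r → Nat.find hex ≤ r := fun r hr => Nat.find_min' hex hr
    set a := Nat.find hex with ha
    obtain ⟨ha1, haN, b, hba, hab⟩ := hspec
    have hline : ∀ n m : ℕ, (n : ℝ) ≤ K * Real.log |(k : ℝ)| → m ≤ n →
        (k.natAbs : ℤ) ∣ (2 : ℤ) ^ n - 3 ^ m → n * b = a * m := by
      intro n m hn hmn hd
      by_contra hne
      have h5 := hN0 _ hN n m a b k.natAbs hn (le_trans (by exact_mod_cast hmn) hn) haN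
        (le_trans (by exact_mod_cast hba) haN) hne (by exact_mod_cast hd) (by exact_mod_cast hab)
        hc2 hc3
      rw [hkabs] at h5
      have h6 : 1 / K * (K * Real.log |(k : ℝ)|) = Real.log |(k : ℝ)| := by field_simp
      rw [h6] at h5
      exact lt_irrefl _ h5
    refine ⟨a, b, ?_, hba, fun x n hx hn h => ?_⟩
    · have h1 : (2 : ℤ) ^ a - 3 ^ b ≠ 0 := by
        have := pow_ne_pow (p := 2) (q := 3) le_rfl (by norm_num) (by norm_num)
          (n := a) (m := b) (Or.inl (by omega))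
        exact sub_ne_zero.2 (by exact_mod_cast this)
      have h2 : (k.natAbs : ℤ) ≤ |(2 : ℤ) ^ a - 3 ^ b| :=
        Int.le_of_dvd (abs_pos.2 h1) ((dvd_abs _ _).2 hab)
      have h3 : |(2 : ℤ) ^ a - 3 ^ b| ≤ 3 ^ a := by
        have e1 : (2 : ℤ) ^ a ≤ 3 ^ a := pow_le_pow_left₀ (by norm_num) (by norm_num) a
        have e2 : (3 : ℤ) ^ b ≤ 3 ^ a := pow_le_pow_right₀ (by norm_num) hba
        have e3 : (0 : ℤ) < 2 ^ a := by positivity
        have e4 : (0 : ℤ) < 3 ^ b := by positivity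
        rw [abs_le]
        constructor <;> linarith
      have h4 : |(k : ℝ)| ≤ 3 ^ a := by
        rw [← hkabs]
        exact_mod_cast h2.trans h3
      have h5 := Real.log_le_log hkr h4
      rwa [Real.log_pow] at h5
    · set m := odds k n x with hm
      have hmn : m ≤ n := odds_le k n x
      have hd := hret x n hx h
      have hl := hline n m hn hmn hd
      set q := n / a with hq
      set r := n % a with hr
      have hnqr : n = q * a + r := by rw [hq, hr, mul_comm]; exact (Nat.div_add_mod n a).symm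
      have hra : r < a := Nat.mod_lt _ (by omega)
      have hqb : q * b ≤ m := by
        by_contra hcon
        push Not at hcon
        have h1 : a * m < a * (q * b) := Nat.mul_lt_mul_of_pos_left hcon (by omega)
        have h2 : n * b = a * (q * b) + r * b := by rw [hnqr]; ring
        omega
      obtain ⟨m1, hm1⟩ := Nat.exists_eq_add_of_le hqb
      have h1 : a * m1 = r * b := by
        have h2 : n * b = a * (q * b) + r * b := by rw [hnqr]; ring
        have h3 : a * m = a * (q * b) + a * m1 := by rw [hm1]; ring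
        omega
      have hm1r : m1 ≤ r := by
        have h2 : a * m1 ≤ a * r := by
          rw [h1, mul_comm a r]
          exact Nat.mul_le_mul_left _ hba
        exact Nat.le_of_mul_le_mul_left h2 (by omega)
      have hdr : (k.natAbs : ℤ) ∣ (2 : ℤ) ^ r - 3 ^ m1 := by
        have e1 : (2 : ℤ) ^ n - 3 ^ m = ((2 ^ a) ^ q - (3 ^ b) ^ q) * 2 ^ r +
            (3 ^ b) ^ q * (2 ^ r - 3 ^ m1) := by
          rw [hnqr, hm1, pow_add, pow_add, mul_comm q a, mul_comm q b, pow_mul, pow_mul]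
          ring
        have e2 : (k.natAbs : ℤ) ∣ ((2 : ℤ) ^ a) ^ q - (3 ^ b) ^ q :=
          hab.trans (sub_dvd_pow_sub_pow _ _ q)
        have e3 : (k.natAbs : ℤ) ∣ (3 ^ b) ^ q * ((2 : ℤ) ^ r - 3 ^ m1) := by
          have h2 := dvd_sub hd (Dvd.dvd.mul_right e2 (2 ^ r))
          rw [e1] at h2
          rwa [add_sub_cancel_left] at h2
        have e4 : IsCoprime (k.natAbs : ℤ) ((3 ^ b) ^ q) := by
          apply IsCoprime.pow_right
          apply IsCoprime.pow_right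
          exact_mod_cast Nat.isCoprime_iff_coprime.2 hc3
        exact e4.dvd_of_dvd_mul_left e3
      have hr0 : r = 0 := by
        by_contra hr0
        have hRr : R r := by
          refine ⟨by omega, le_trans ?_ hn, m1, hm1r, hdr⟩
          have : r ≤ n := Nat.mod_le _ _
          exact_mod_cast this
        have := hmin r hRr
        omega
      rw [hr0, zero_mul] at h1
      have hm10 : m1 = 0 := by
        rcases Nat.mul_eq_zero.1 h1 with h2 | h2
        · omega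
        · exact h2
      exact ⟨q, by rw [hnqr, hr0, add_zero], by rw [hm1, hm10, add_zero]⟩
  · obtain ⟨a, ha⟩ := exists_nat_ge (Real.log |(k : ℝ)| / Real.log 3)
    refine ⟨a, 0, ?_, Nat.zero_le _, fun x n hx hn h => ⟨0, ?_, ?_⟩⟩
    · rwa [div_le_iff₀ hlog3] at ha
    · by_contra hn0
      exact hex ⟨n, by omega, hn, _, odds_le k n x, hret x n hx h⟩
    · have hn0 : n = 0 := by
        by_contra hn0
        exact hex ⟨n, by omega, hn, _, odds_le k n x, hret x n hx h⟩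
      rw [hn0]
      simp [odds]

end Q64.CY
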