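import Pool.Agent.Q64.CY.SU

/-!
# Common divisors of `p ^ n - q ^ m` and `p ^ n' - q ^ m'` (after Bugeaud, Corvaja and Zannier)
-/

set_option autoImplicit false

namespace Q64.CY

open Finset Filter Topology Pool.Agent.TH461.SST

lemma pow_ne_pow {p q : ℕ} (hp : 2 ≤ p) (hq : 2 ≤ q) (hpq : Nat.Coprime p q) {n m : ℕ}
    (h : n ≠ 0 ∨ m ≠ 0) : (p : ℤ) ^ n ≠ (q : ℤ) ^ m := by
  intro h1
  have h2 : p ^ n = q ^ m := by exact_mod_cast h1
  rcases Nat.eq_zero_or_pos n with h0 | h0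
  · subst h0
    rw [pow_zero] at h2
    have hm : m ≠ 0 := by simpa using h
    have := Nat.one_lt_pow hm (by omega : 1 < q)
    omega
  · have h3 : Nat.Coprime (p ^ n) (q ^ m) := Nat.Coprime.pow _ _ hpq
    rw [← h2, Nat.coprime_self] at h3
    have := Nat.one_lt_pow h0.ne' (by omega : 1 < p)
    omega

/-- a divisor of a difference of two products with given quotient is bounded -/
lemma dvd_bound {p q : ℕ} (hp : 2 ≤ p) (hq : 2 ≤ q) (hpq : Nat.Coprime p q) {D : ℕ}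
    (hDp : Nat.Coprime D p) (hDq : Nat.Coprime D q) {u u' v v' : ℕ} {r s : ℤ}
    (hr : (u : ℤ) - u' = r) (hs : (v : ℤ) - v' = s) (hrs : r ≠ 0 ∨ s ≠ 0)
    (hd : (D : ℤ) ∣ (p : ℤ) ^ u * (q : ℤ) ^ v - (p : ℤ) ^ u' * (q : ℤ) ^ v') :
    D ≤ p ^ r.natAbs * q ^ s.natAbs := by
  have hp0 : (0 : ℤ) < p := by exact_mod_cast (by omega : 0 < p)
  have hq0 : (0 : ℤ) < q := by exact_mod_cast (by omega : 0 < q)
  set a := min u u' with ha
  set b := min v v' with hb
  set Z : ℤ := (p : ℤ) ^ (u - a) * (q : ℤ) ^ (v - b) - (p : ℤ) ^ (u' - a) * (q : ℤ) ^ (v' - b) with hZ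
  have e : (p : ℤ) ^ u * (q : ℤ) ^ v - (p : ℤ) ^ u' * (q : ℤ) ^ v' =
      (p : ℤ) ^ a * ((q : ℤ) ^ b * Z) := by
    have h1 : u = a + (u - a) := by omega
    have h2 : v = b + (v - b) := by omega
    have h3 : u' = a + (u' - a) := by omega
    have h4 : v' = b + (v' - b) := by omega
    rw [hZ]
    conv_lhs => rw [h1, h2, h3, h4]
    rw [pow_add, pow_add, pow_add, pow_add]
    ring
  have hc1 : IsCoprime (D : ℤ) ((p : ℤ) ^ a) := by
    apply IsCoprime.pow_right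
    exact Nat.isCoprime_iff_coprime.2 hDp
  have hc2 : IsCoprime (D : ℤ) ((q : ℤ) ^ b) := by
    apply IsCoprime.pow_right
    exact Nat.isCoprime_iff_coprime.2 hDq
  rw [e] at hd
  have hdZ : (D : ℤ) ∣ Z := hc2.dvd_of_dvd_mul_left (hc1.dvd_of_dvd_mul_left hd)
  -- `Z` is not zero
  have hZ0 : Z ≠ 0 := by
    intro h0
    have h1 : p ^ (u - a) * q ^ (v - b) = p ^ (u' - a) * q ^ (v' - b) := by
      have : (p : ℤ) ^ (u - a) * (q : ℤ) ^ (v - b) = (p : ℤ) ^ (u' - a) * (q : ℤ) ^ (v' - b) := by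
        rw [hZ] at h0; linarith
      exact_mod_cast this
    -- exponents
    have key : ∀ x y z w : ℕ, p ^ x * q ^ y = p ^ z * q ^ w → x = z := by
      intro x y z w h
      have aux : ∀ x y z w : ℕ, p ^ x * q ^ y = p ^ z * q ^ w → x < z → False := by
        intro x y z w h hxz
        have h2 : q ^ y = p ^ (z - x) * q ^ w := by
          have h3 : p ^ z = p ^ x * p ^ (z - x) := by rw [← pow_add]; congr 1; omega
          rw [h3, mul_assoc] at h
          exact Nat.eq_of_mul_eq_mul_left (pow_pos (by omega) _) h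
        have h4 : p ∣ q ^ y := by
          rw [h2]
          exact Dvd.dvd.mul_right (dvd_pow_self p (by omega)) _
        have h5 : Nat.Coprime p (q ^ y) := Nat.Coprime.pow_right _ hpq
        have h6 := Nat.Coprime.eq_one_of_dvd h5 h4
        omega
      rcases lt_trichotomy x z with h2 | h2 | h2
      · exact (aux _ _ _ _ h h2).elim
      · exact h2
      · exact (aux _ _ _ _ h.symm h2).elim
    have k1 : u - a = u' - a := key _ _ _ _ h1
    rw [k1] at h1
    have h2 : q ^ (v - b) = q ^ (v' - b) :=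
      Nat.eq_of_mul_eq_mul_left (pow_pos (by omega) _) h1
    have k2 : v - b = v' - b := Nat.pow_right_injective hq h2
    omega
  have h1 : (D : ℤ) ≤ |Z| := Int.le_of_dvd (abs_pos.2 hZ0) ((dvd_abs _ _).2 hdZ)
  have h2 : |Z| ≤ (p : ℤ) ^ r.natAbs * (q : ℤ) ^ s.natAbs := by
    have hpos : ∀ x y : ℕ, (1 : ℤ) ≤ (p : ℤ) ^ x * (q : ℤ) ^ y := fun x y => by
      have : (0 : ℤ) < (p : ℤ) ^ x * (q : ℤ) ^ y := by positivity
      omega
    have hp1 : (1 : ℤ) ≤ p := by omega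
    have hq1 : (1 : ℤ) ≤ q := by omega
    have hmono : ∀ x y : ℕ, x ≤ r.natAbs → y ≤ s.natAbs →
        (p : ℤ) ^ x * (q : ℤ) ^ y ≤ (p : ℤ) ^ r.natAbs * (q : ℤ) ^ s.natAbs := by
      intro x y hx hy
      apply mul_le_mul (pow_le_pow_right₀ hp1 hx) (pow_le_pow_right₀ hq1 hy) (by positivity)
        (by positivity)
    have m1 := hmono (u - a) (v - b) (by omega) (by omega)
    have m2 := hmono (u' - a) (v' - b) (by omega) (by omega)
    have p1 := hpos (u - a) (v - b)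
    have p2 := hpos (u' - a) (v' - b)
    rw [abs_le]
    constructor
    · rw [hZ]; linarith
    · rw [hZ]; linarith
  have h3 := h1.trans h2
  exact_mod_cast h3

/-- the index set of the coordinates -/
abbrev Ix (k h : ℕ) : Type := Fin k ⊕ (Fin (k + 1) × Fin h)

/-- the block of the forms at the place `p` -/
def Bm (k h : ℕ) : Matrix (Fin k) (Fin (k + 1) × Fin h) ℤ :=
  fun j is => (if is.1 = j.succ then 1 else 0) - (if is.1 = 0 then 1 else 0)

lemma X_row {k h : ℕ} (E : Fin k → ℤ) (Y : Fin (k + 1) × Fin h → ℤ) (j : Fin k) :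
    ∑ l, (Matrix.fromBlocks 1 (Bm k h) 0 1 : Matrix (Ix k h) (Ix k h) ℤ) (Sum.inl j) l *
      (Sum.elim E Y) l = E j + (∑ s, Y (j.succ, s) - ∑ s, Y (0, s)) := by
  rw [Fintype.sum_sum_type]
  simp only [Matrix.fromBlocks_apply₁₁, Matrix.fromBlocks_apply₁₂, Sum.elim_inl, Sum.elim_inr]
  congr 1
  · simp [Matrix.one_apply]
  · rw [Fintype.sum_prod_type]
    simp only [Bm, sub_mul, Finset.sum_sub_distrib, ite_mul, one_mul, zero_mul]
    congr 1
    · rw [Finset.sum_eq_single j.succ]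
      · simp
      · intro b _ hb; simp [hb]
      · intro h; exact absurd (Finset.mem_univ _) h
    · rw [Finset.sum_eq_single (0 : Fin (k + 1))]
      · simp
      · intro b _ hb; simp [hb]
      · intro h; exact absurd (Finset.mem_univ _) h

lemma X_row' {k h : ℕ} (E : Fin k → ℤ) (Y : Fin (k + 1) × Fin h → ℤ) (a : Fin (k + 1) × Fin h) :
    ∑ l, (Matrix.fromBlocks 1 (Bm k h) 0 1 : Matrix (Ix k h) (Ix k h) ℤ) (Sum.inr a) l *
      (Sum.elim E Y) l = Y a := by
  rw [Fintype.sum_sum_type]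
  simp [Matrix.one_apply]

/-- the coordinates -/
def Ec (k h : ℕ) (Q Q' : ℤ) (c : ℕ → ℤ) (j : Fin k) : ℤ :=
  Q ^ h * (Q' ^ (k - ((j : ℕ) + 1)) * c ((j : ℕ) + 1))

/-- the coordinates -/
def Yc (k h : ℕ) (P Q P' Q' W : ℤ) (a : Fin (k + 1) × Fin h) : ℤ :=
  W * ((P' ^ (a.1 : ℕ) * Q' ^ (k - (a.1 : ℕ))) * (P ^ (a.2 : ℕ) * Q ^ (h - 1 - (a.2 : ℕ))))

lemma row_identity {k h : ℕ} {P Q P' Q' D W : ℤ} {c : ℕ → ℤ} (hD : D ≠ 0) (h1 : P - Q = D * W)
    (h2 : ∀ j, P' ^ j - Q' ^ j = D * c j) (j : Fin k) :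
    Ec k h Q Q' c j + (∑ s, Yc k h P Q P' Q' W (j.succ, s) - ∑ s, Yc k h P Q P' Q' W (0, s)) =
      P ^ h * (Q' ^ (k - ((j : ℕ) + 1)) * c ((j : ℕ) + 1)) := by
  apply mul_left_cancel₀ hD
  have hG : (∑ s : Fin h, P ^ (s : ℕ) * Q ^ (h - 1 - (s : ℕ))) * (P - Q) = P ^ h - Q ^ h := by
    rw [Fin.sum_univ_eq_sum_range (fun s => P ^ s * Q ^ (h - 1 - s)) h]
    exact (Commute.all P Q).geom_sum₂_mul h
  set G := ∑ s : Fin h, P ^ (s : ℕ) * Q ^ (h - 1 - (s : ℕ)) with hGd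
  have e1 : ∀ i : Fin (k + 1), ∑ s, Yc k h P Q P' Q' W (i, s) =
      W * ((P' ^ (i : ℕ) * Q' ^ (k - (i : ℕ))) * G) := by
    intro i
    rw [hGd, Finset.mul_sum, Finset.mul_sum]
    rfl
  rw [e1, e1]
  have h3 : Q' ^ k = Q' ^ (k - ((j : ℕ) + 1)) * Q' ^ ((j : ℕ) + 1) := by
    rw [← pow_add]; congr 1; have := j.2; omega
  have h4 := h2 ((j : ℕ) + 1)
  unfold Ec
  simp only [Fin.val_succ, Fin.val_zero, pow_zero, one_mul, Nat.sub_zero]
  rw [h3]
  have h5 : D * W * G = P ^ h - Q ^ h := by rw [← h1, mul_comm, hG]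
  calc D * (Q ^ h * (Q' ^ (k - (↑j + 1)) * c (↑j + 1)) +
        (W * (P' ^ (↑j + 1) * Q' ^ (k - (↑j + 1)) * G) -
          W * (Q' ^ (k - (↑j + 1)) * Q' ^ (↑j + 1) * G)))
      = Q ^ h * Q' ^ (k - (↑j + 1)) * (D * c (↑j + 1)) +
        (D * W * G) * Q' ^ (k - (↑j + 1)) * (P' ^ ((j : ℕ) + 1) - Q' ^ ((j : ℕ) + 1)) := by ring
    _ = _ := by rw [h5, h4]; ring

/-- the coefficients of `y` -/
def zc {k h : ℕ} (y : Ix k h → ℤ) (i s : ℕ) : ℤ :=
  if hi : i < k + 1 ∧ s < h then y (Sum.inr (⟨i, hi.1⟩, ⟨s, hi.2⟩)) else 0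

/-- the coefficients of `y` -/
def wc {k h : ℕ} (y : Ix k h → ℤ) (i : ℕ) : ℤ :=
  if hi : 1 ≤ i ∧ i ≤ k then y (Sum.inl ⟨i - 1, by omega⟩) else 0

/-- the coefficients of the monomials -/
def fc {k h : ℕ} (y : Ix k h → ℤ) (b : ℕ × ℕ) : ℤ :=
  (if b.1 = 0 then wc y b.2 - (if b.2 = 0 then ∑ j ∈ range k, wc y (j + 1) else 0)
    else zc y b.2 (b.1 - 1)) - zc y b.2 b.1

lemma fc_zero {k h : ℕ} (y : Ix k h → ℤ)
    (hf : ∀ b ∈ range (h + 1) ×ˢ range (k + 1), fc y b = 0) : y = 0 := by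
  have hz : ∀ i < k + 1, ∀ a : ℕ, a ≤ h → zc y i (h - a) = 0 := by
    intro i hi a
    induction a with
    | zero =>
      intro _
      unfold zc
      rw [dif_neg]
      omega
    | succ a ih =>
      intro ha
      have h1 := hf (h - a, i) (by rw [mem_product, mem_range, mem_range]; exact ⟨by omega, hi⟩)
      unfold fc at h1
      simp only at h1
      rw [if_neg (by omega), ih (by omega), sub_zero] at h1
      rw [← h1]
      congr 1
  have hw : ∀ i, 1 ≤ i → i ≤ k → wc y i = 0 := by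
    intro i hi hik
    have h1 := hf (0, i) (by rw [mem_product, mem_range, mem_range]; exact ⟨by omega, by omega⟩)
    unfold fc at h1
    simp only [if_true] at h1
    rw [if_neg (by omega : ¬ i = 0), sub_zero] at h1
    have h2 := hz i (by omega) h le_rfl
    rw [Nat.sub_self] at h2
    rw [h2, sub_zero] at h1
    exact h1
  funext l
  rcases l with j | ⟨i, s⟩
  · have h1 := hw (j + 1) (by omega) (by have := j.2; omega)
    unfold wc at h1
    rw [dif_pos (⟨by omega, by have := j.2; omega⟩ : 1 ≤ (j : ℕ) + 1 ∧ (j : ℕ) + 1 ≤ k)] at h1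
    simpa using h1
  · have h1 := hz i i.2 (h - s) (by omega)
    have h2 : h - (h - (s : ℕ)) = s := by have := s.2; omega
    rw [h2] at h1
    unfold zc at h1
    rw [dif_pos ⟨i.2, s.2⟩] at h1
    simpa using h1

lemma rel_identity {k h : ℕ} {P Q P' Q' D W : ℤ} {c : ℕ → ℤ} (h1 : P - Q = D * W)
    (h2 : ∀ j, P' ^ j - Q' ^ j = D * c j) (y : Ix k h → ℤ) :
    D * ∑ l, y l * (Sum.elim (Ec k h Q Q' c) (Yc k h P Q P' Q' W)) l =
      ∑ b ∈ range (h + 1) ×ˢ range (k + 1),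
        fc y b * ((P ^ b.1 * Q ^ (h - b.1)) * (P' ^ b.2 * Q' ^ (k - b.2))) := by
  -- left side
  have hL : D * ∑ l, y l * (Sum.elim (Ec k h Q Q' c) (Yc k h P Q P' Q' W)) l =
      ∑ j ∈ range k, wc y (j + 1) * (Q ^ h * (P' ^ (j + 1) * Q' ^ (k - (j + 1))) - Q ^ h * Q' ^ k) +
      ∑ i ∈ range (k + 1), (∑ s ∈ range h, zc y i s * ((P - Q) * (P ^ s * Q ^ (h - 1 - s)))) *
        (P' ^ i * Q' ^ (k - i)) := by
    rw [Fintype.sum_sum_type, mul_add]
    simp only [Sum.elim_inl, Sum.elim_inr]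
    congr 1
    · rw [← Fin.sum_univ_eq_sum_range (fun j => wc y (j + 1) *
        (Q ^ h * (P' ^ (j + 1) * Q' ^ (k - (j + 1))) - Q ^ h * Q' ^ k)) k, Finset.mul_sum]
      refine Finset.sum_congr rfl fun j _ => ?_
      have e1 : wc y ((j : ℕ) + 1) = y (Sum.inl j) := by
        unfold wc
        rw [dif_pos ⟨by omega, by have := j.2; omega⟩]
        simp
      have e2 : Q' ^ k = Q' ^ (k - ((j : ℕ) + 1)) * Q' ^ ((j : ℕ) + 1) := by
        rw [← pow_add]; congr 1; have := j.2; omega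
      rw [e1, e2]
      unfold Ec
      have e3 := h2 ((j : ℕ) + 1)
      calc D * (y (Sum.inl j) * (Q ^ h * (Q' ^ (k - (↑j + 1)) * c (↑j + 1))))
          = y (Sum.inl j) * Q ^ h * Q' ^ (k - (↑j + 1)) * (D * c (↑j + 1)) := by ring
        _ = _ := by rw [← e3]; ring
    · rw [← Fin.sum_univ_eq_sum_range (fun i => (∑ s ∈ range h, zc y i s *
        ((P - Q) * (P ^ s * Q ^ (h - 1 - s)))) * (P' ^ i * Q' ^ (k - i))) (k + 1),
        Fintype.sum_prod_type, Finset.mul_sum]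
      refine Finset.sum_congr rfl fun i _ => ?_
      rw [← Fin.sum_univ_eq_sum_range (fun s => zc y i s *
        ((P - Q) * (P ^ s * Q ^ (h - 1 - s)))) h, Finset.mul_sum, Finset.sum_mul]
      refine Finset.sum_congr rfl fun s _ => ?_
      have e1 : zc y (i : ℕ) (s : ℕ) = y (Sum.inr (i, s)) := by
        unfold zc
        rw [dif_pos ⟨i.2, s.2⟩]
      rw [e1, h1]
      unfold Yc
      ring
  have hR : ∑ b ∈ range (h + 1) ×ˢ range (k + 1),
        fc y b * ((P ^ b.1 * Q ^ (h - b.1)) * (P' ^ b.2 * Q' ^ (k - b.2))) =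
      ∑ i ∈ range (k + 1), ((wc y i - (if i = 0 then ∑ j ∈ range k, wc y (j + 1) else 0)) * Q ^ h +
        ∑ s ∈ range h, zc y i s * ((P - Q) * (P ^ s * Q ^ (h - 1 - s)))) *
          (P' ^ i * Q' ^ (k - i)) := by
    rw [Finset.sum_product_right]
    refine Finset.sum_congr rfl fun i hi => ?_
    have e0 : ∀ a ∈ range (h + 1), fc y (a, i) * ((P ^ a * Q ^ (h - a)) * (P' ^ i * Q' ^ (k - i))) =
        ((if a = 0 then wc y i - (if i = 0 then ∑ j ∈ range k, wc y (j + 1) else 0)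
          else zc y i (a - 1)) * (P ^ a * Q ^ (h - a)) - zc y i a * (P ^ a * Q ^ (h - a))) *
          (P' ^ i * Q' ^ (k - i)) := by
      intro a _
      unfold fc
      ring
    simp only
    rw [Finset.sum_congr rfl e0, ← Finset.sum_mul, Finset.sum_sub_distrib]
    congr 1
    rw [Finset.sum_range_succ', Finset.sum_range_succ (fun a => zc y i a * (P ^ a * Q ^ (h - a)))]
    have e1 : zc y i h = 0 := by
      unfold zc
      rw [dif_neg]
      omega
    rw [e1, zero_mul, add_zero]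
    simp only [if_true, Nat.add_eq_zero_iff, one_ne_zero, and_false, if_false,
      Nat.add_sub_cancel, pow_zero, one_mul, Nat.sub_zero]
    rw [add_sub_right_comm, ← Finset.sum_sub_distrib, add_comm]
    congr 1
    refine Finset.sum_congr rfl fun s hs => ?_
    have hs' := mem_range.1 hs
    have e2 : h - (s + 1) = h - 1 - s := by omega
    have e3 : Q ^ (h - s) = Q * Q ^ (h - 1 - s) := by
      rw [← pow_succ']; congr 1; omega
    rw [e2, e3]
    ring
  rw [hL, hR]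
  simp only [add_mul]
  rw [Finset.sum_add_distrib]
  congr 1
  rw [Finset.sum_range_succ']
  have e1 : wc y 0 = 0 := by
    unfold wc
    rw [dif_neg]
    omega
  simp only [Nat.add_eq_zero_iff, one_ne_zero, and_false, if_false, sub_zero, if_true, e1, zero_sub,
    pow_zero, one_mul, Nat.sub_zero]
  simp only [mul_sub, Finset.sum_sub_distrib]
  rw [← Finset.sum_mul, neg_mul, neg_mul, ← sub_eq_add_neg]
  congr 1
  · refine Finset.sum_congr rfl fun j _ => ?_
    ring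
  · ring

end Q64.CY
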