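import Pool.Agent.Q64.CY.Gcd

/-!
# Common divisors of `p ^ n - q ^ m` and `p ^ n' - q ^ m'`: the estimate
-/

set_option autoImplicit false

namespace Q64.CY

open Finset Filter Topology Pool.Agent.TH461.SST

lemma abs_sub_le_mul {a b : ℤ} (ha : 1 ≤ a) (hb : 1 ≤ b) : |a - b| ≤ a * b := by
  rw [abs_le]
  constructor <;> nlinarith

lemma one_le_pow_int {p : ℕ} (hp : 2 ≤ p) (n : ℕ) : (1 : ℤ) ≤ (p : ℤ) ^ n := by
  have h : (0 : ℤ) < p := by exact_mod_cast (by omega : 0 < p)
  have : (0 : ℤ) < (p : ℤ) ^ n := by positivity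
  omega

lemma log_abs_pow {p : ℕ} (n : ℕ) : Real.log |(((p : ℤ) ^ n : ℤ) : ℝ)| = n * Real.log p := by
  push_cast
  rw [abs_of_nonneg (by positivity), Real.log_pow]

/-- the frequent relation -/
lemma seq_relation {p q : ℕ} (hp : 2 ≤ p) (hq : 2 ≤ q) (hpq : Nat.Coprime p q)
    (n m n' m' D : ℕ → ℕ) (N : ℕ → ℝ) {ε : ℝ} (hε : 0 < ε) (hN : Tendsto N atTop atTop)
    (hn : ∀ t, (n t : ℝ) ≤ N t) (hm : ∀ t, (m t : ℝ) ≤ N t) (hn' : ∀ t, (n' t : ℝ) ≤ N t)
    (hm' : ∀ t, (m' t : ℝ) ≤ N t) (hdet : ∀ t, n t * m' t ≠ n' t * m t)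
    (hlt : ∀ t, q ^ (m t) < p ^ (n t))
    (hbig : ∀ t, ε * N t ≤ Real.log (D t)) (hD0 : ∀ t, D t ≠ 0)
    (W : ℕ → ℤ) (c : ℕ → ℕ → ℤ)
    (hW : ∀ t, (p : ℤ) ^ (n t) - (q : ℤ) ^ (m t) = D t * W t)
    (hc : ∀ t j, ((p : ℤ) ^ (n' t)) ^ j - ((q : ℤ) ^ (m' t)) ^ j = D t * c t j)
    {k h : ℕ} (hk1 : 1 ≤ k) (hk : Real.log p + 1 ≤ (k + 1) * ε)
    (hh : (k : ℝ) ^ 2 * (Real.log p + Real.log q) + 1 ≤ h) :
    ∃ y : Ix k h → ℤ, y ≠ 0 ∧ ∃ᶠ t in atTop, ∑ l, y l *
      (Sum.elim (Ec k h ((q : ℤ) ^ (m t)) ((q : ℤ) ^ (m' t)) (c t))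
        (Yc k h ((p : ℤ) ^ (n t)) ((q : ℤ) ^ (m t)) ((p : ℤ) ^ (n' t)) ((q : ℤ) ^ (m' t)) (W t))) l
        = 0 := by
  classical
  have hlp : 0 < Real.log p := Real.log_pos (by exact_mod_cast (by omega : 1 < p))
  have hlq : 0 < Real.log q := Real.log_pos (by exact_mod_cast (by omega : 1 < q))
  set L : ℝ := Real.log p + Real.log q with hL
  have hLpos : 0 < L := by positivity
  have hN0 : ∀ t, 0 ≤ N t := fun t => (Nat.cast_nonneg _).trans (hn t)
  have hp0 : (0 : ℤ) < p := by exact_mod_cast (by omega : 0 < p)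
  have hq0 : (0 : ℤ) < q := by exact_mod_cast (by omega : 0 < q)
  have hnm : ∀ t, n t ≠ 0 ∨ m t ≠ 0 := by
    intro t
    by_contra hcon
    push Not at hcon
    exact hdet t (by rw [hcon.1, hcon.2]; simp)
  have hnm' : ∀ t, n' t ≠ 0 ∨ m' t ≠ 0 := by
    intro t
    by_contra hcon
    push Not at hcon
    exact hdet t (by rw [hcon.1, hcon.2]; simp)
  have hDpos : ∀ t, (1 : ℤ) ≤ D t := fun t => by have := hD0 t; omega
  have hW0 : ∀ t, W t ≠ 0 := by
    intro t h0
    have := hW t
    rw [h0, mul_zero, sub_eq_zero] at this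
    exact pow_ne_pow hp hq hpq (hnm t) this
  have hc0 : ∀ t j, c t (j + 1) ≠ 0 := by
    intro t j h0
    have := hc t (j + 1)
    rw [h0, mul_zero, sub_eq_zero, ← pow_mul, ← pow_mul] at this
    refine pow_ne_pow hp hq hpq ?_ this
    rcases hnm' t with h1 | h1
    · left; exact Nat.mul_ne_zero h1 (by omega)
    · right; exact Nat.mul_ne_zero h1 (by omega)
  -- the bound for `W`
  have hWlog : ∀ t, Real.log |(W t : ℝ)| ≤ n t * Real.log p - ε * N t := by
    intro t
    have h1 : |(D t : ℤ) * W t| ≤ (p : ℤ) ^ (n t) := by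
      rw [← hW t, abs_le]
      have h2 : ((q : ℤ) ^ (m t)) < (p : ℤ) ^ (n t) := by exact_mod_cast hlt t
      have h3 : (0 : ℤ) < (q : ℤ) ^ (m t) := by positivity
      constructor <;> linarith
    have h2 : |((D t : ℤ) : ℝ) * (W t : ℝ)| ≤ (p : ℝ) ^ (n t) := by exact_mod_cast h1
    have hDr : (0 : ℝ) < |((D t : ℤ) : ℝ)| := abs_pos.2 (by exact_mod_cast hD0 t)
    have hWr : (0 : ℝ) < |(W t : ℝ)| := abs_pos.2 (by exact_mod_cast hW0 t)
    rw [abs_mul] at h2
    have h3 := Real.log_le_log (by positivity) h2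
    rw [Real.log_mul hDr.ne' hWr.ne', Real.log_pow] at h3
    have h4 : Real.log |((D t : ℤ) : ℝ)| = Real.log (D t) := by
      rw [Int.cast_natCast, abs_of_nonneg (Nat.cast_nonneg _)]
    rw [h4] at h3
    have := hbig t
    linarith
  have hclog : ∀ t j, j + 1 ≤ k → Real.log |(c t (j + 1) : ℝ)| ≤ k * L * N t := by
    intro t j hj
    have h1 : |c t (j + 1)| ≤ ((p : ℤ) ^ (n' t)) ^ (j + 1) * ((q : ℤ) ^ (m' t)) ^ (j + 1) := by
      have h2 : |(D t : ℤ) * c t (j + 1)| ≤
          ((p : ℤ) ^ (n' t)) ^ (j + 1) * ((q : ℤ) ^ (m' t)) ^ (j + 1) := by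
        rw [← hc t (j + 1)]
        rw [← pow_mul, ← pow_mul]
        exact abs_sub_le_mul (one_le_pow_int hp _) (one_le_pow_int hq _)
      rw [abs_mul] at h2
      refine le_trans ?_ h2
      have h3 : (1 : ℤ) ≤ |(D t : ℤ)| := by rw [abs_of_nonneg (by omega)]; exact hDpos t
      nlinarith [abs_nonneg (c t (j + 1))]
    have h2 : |(c t (j + 1) : ℝ)| ≤ ((p : ℝ) ^ (n' t)) ^ (j + 1) * ((q : ℝ) ^ (m' t)) ^ (j + 1) := by
      exact_mod_cast h1
    have hcr : (0 : ℝ) < |(c t (j + 1) : ℝ)| := abs_pos.2 (by exact_mod_cast hc0 t j)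
    have hpr : (0 : ℝ) < p := by exact_mod_cast hp0
    have hqr : (0 : ℝ) < q := by exact_mod_cast hq0
    have h3 := Real.log_le_log hcr h2
    rw [Real.log_mul (by positivity) (by positivity), Real.log_pow, Real.log_pow, Real.log_pow,
      Real.log_pow] at h3
    have h4 : ((j + 1 : ℕ) : ℝ) ≤ k := by exact_mod_cast hj
    have h5 : (n' t : ℝ) * Real.log p ≤ N t * Real.log p := mul_le_mul_of_nonneg_right (hn' t) hlp.le
    have h6 : (m' t : ℝ) * Real.log q ≤ N t * Real.log q := mul_le_mul_of_nonneg_right (hm' t) hlq.le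
    have h7 : 0 ≤ (n' t : ℝ) * Real.log p := by positivity
    have h8 : 0 ≤ (m' t : ℝ) * Real.log q := by positivity
    calc Real.log |(c t (j + 1) : ℝ)|
        ≤ ((j + 1 : ℕ) : ℝ) * (n' t * Real.log p) + ((j + 1 : ℕ) : ℝ) * (m' t * Real.log q) := h3
      _ ≤ k * (N t * Real.log p) + k * (N t * Real.log q) := by gcongr
      _ = k * L * N t := by rw [hL]; ring
  -- the coordinates
  set x : ℕ → Ix k h → ℤ := fun t =>
    Sum.elim (Ec k h ((q : ℤ) ^ (m t)) ((q : ℤ) ^ (m' t)) (c t))
      (Yc k h ((p : ℤ) ^ (n t)) ((q : ℤ) ^ (m t)) ((p : ℤ) ^ (n' t)) ((q : ℤ) ^ (m' t)) (W t)) with hx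
  -- exponents
  set e : ℕ → Fin 2 → Ix k h → ℕ := fun t w l =>
    if w = 0 then Sum.elim (fun _ : Fin k => n t * h)
        (fun a : Fin (k + 1) × Fin h => n' t * a.1 + n t * a.2) l
      else Sum.elim (fun j : Fin k => m t * h + m' t * (k - (j + 1)))
        (fun a : Fin (k + 1) × Fin h => m' t * (k - a.1) + m t * (h - 1 - a.2)) l with he
  set g : ℕ → Ix k h → ℝ := fun t =>
    Sum.elim (fun j : Fin k => Real.log |(c t ((j : ℕ) + 1) : ℝ)| - h * (n t * Real.log p))
      (fun _ : Fin (k + 1) × Fin h => Real.log |(W t : ℝ)|) with hg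
  have hx0 : ∀ t l, x t l ≠ 0 := by
    intro t l
    rcases l with j | a
    · simp only [hx, Sum.elim_inl, Ec]
      have := hc0 t j
      positivity
    · simp only [hx, Sum.elim_inr, Yc]
      have := hW0 t
      positivity
  have hlog : ∀ t l, Real.log |(x t l : ℝ)| =
      (e t 0 l : ℝ) * Real.log p + (e t 1 l : ℝ) * Real.log q + g t l := by
    intro t l
    rcases l with j | a
    · have hcr : |(c t ((j : ℕ) + 1) : ℝ)| ≠ 0 := abs_ne_zero.2 (by exact_mod_cast hc0 t j)
      simp only [hx, he, hg, Sum.elim_inl, Ec, if_true, Fin.isValue, one_ne_zero, if_false]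
      rw [Int.cast_mul, Int.cast_mul, abs_mul, abs_mul, ← pow_mul, ← pow_mul,
        Real.log_mul, Real.log_mul, log_abs_pow, log_abs_pow]
      · push_cast
        ring
      · exact abs_ne_zero.2 (by exact_mod_cast (by positivity : (q : ℤ) ^ (m' t * (k - (↑j + 1))) ≠ 0))
      · exact hcr
      · exact abs_ne_zero.2 (by exact_mod_cast (by positivity : (q : ℤ) ^ (m t * h) ≠ 0))
      · apply mul_ne_zero
        · exact abs_ne_zero.2
            (by exact_mod_cast (by positivity : (q : ℤ) ^ (m' t * (k - (↑j + 1))) ≠ 0))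
        · exact hcr
    · have hWr : |(W t : ℝ)| ≠ 0 := abs_ne_zero.2 (by exact_mod_cast hW0 t)
      have z1 : ∀ r : ℕ, |(((p : ℤ) ^ r : ℤ) : ℝ)| ≠ 0 := fun r =>
        abs_ne_zero.2 (by exact_mod_cast (by positivity : (p : ℤ) ^ r ≠ 0))
      have z2 : ∀ r : ℕ, |(((q : ℤ) ^ r : ℤ) : ℝ)| ≠ 0 := fun r =>
        abs_ne_zero.2 (by exact_mod_cast (by positivity : (q : ℤ) ^ r ≠ 0))
      simp only [hx, he, hg, Sum.elim_inr, Yc, if_true, Fin.isValue, one_ne_zero, if_false]
      rw [← pow_mul, ← pow_mul, ← pow_mul, ← pow_mul, Int.cast_mul, Int.cast_mul, Int.cast_mul,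
        Int.cast_mul, abs_mul, abs_mul, abs_mul, abs_mul,
        Real.log_mul hWr (mul_ne_zero (mul_ne_zero (z1 _) (z2 _)) (mul_ne_zero (z1 _) (z2 _))),
        Real.log_mul (mul_ne_zero (z1 _) (z2 _)) (mul_ne_zero (z1 _) (z2 _)),
        Real.log_mul (z1 _) (z2 _), Real.log_mul (z1 _) (z2 _),
        log_abs_pow, log_abs_pow, log_abs_pow, log_abs_pow]
      push_cast
      ring
  have hbd : ∀ t (r s a b : ℕ), (r : ℝ) ≤ N t → (s : ℝ) ≤ N t → a ≤ k → b ≤ h →
      ((r * a + s * b : ℕ) : ℝ) ≤ (k + h) * N t := by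
    intro t r s a b hr hs ha hb
    push_cast
    have h1 : (a : ℝ) ≤ k := by exact_mod_cast ha
    have h2 : (b : ℝ) ≤ h := by exact_mod_cast hb
    have h3 : (r : ℝ) * a ≤ N t * k := mul_le_mul hr h1 (Nat.cast_nonneg _) (hN0 t)
    have h4 : (s : ℝ) * b ≤ N t * h := mul_le_mul hs h2 (Nat.cast_nonneg _) (hN0 t)
    linarith
  have he0 : ∀ t l, (e t 0 l : ℝ) ≤ (k + h) * N t := by
    intro t l
    rcases l with j | a
    · simp only [he, Sum.elim_inl, if_true]
      have := hbd t 0 (n t) 0 h (by simpa using hN0 t) (hn t) (by omega) le_rfl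
      simpa using this
    · simp only [he, Sum.elim_inr, if_true]
      exact hbd t (n' t) (n t) a.1 a.2 (hn' t) (hn t) (by have := a.1.2; omega) a.2.2.le
  have he1 : ∀ t l, (e t 1 l : ℝ) ≤ (k + h) * N t := by
    intro t l
    rcases l with j | a
    · simp only [he, Sum.elim_inl, one_ne_zero, if_false]
      have := hbd t (m' t) (m t) (k - ((j : ℕ) + 1)) h (hm' t) (hm t) (by omega) le_rfl
      rwa [add_comm] at this
    · simp only [he, Sum.elim_inr, one_ne_zero, if_false]
      exact hbd t (m' t) (m t) (k - a.1) (h - 1 - a.2) (hm' t) (hm t) (by omega) (by omega)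
  have hgle : ∀ t l, g t l ≤ (k + 1) * L * N t := by
    intro t l
    have h0 := hN0 t
    rcases l with j | a
    · simp only [hg, Sum.elim_inl]
      have h1 := hclog t j (by have := j.2; omega)
      have h2 : 0 ≤ (h : ℝ) * (n t * Real.log p) := by positivity
      have h3 : 0 ≤ L * N t := by positivity
      linarith
    · simp only [hg, Sum.elim_inr]
      have h1 := hWlog t
      have h2 : (n t : ℝ) * Real.log p ≤ N t * Real.log p :=
        mul_le_mul_of_nonneg_right (hn t) hlp.le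
      have h3 : 0 ≤ ε * N t := by positivity
      have h4 : 0 ≤ (k : ℝ) * (L * N t) := by positivity
      have h5 : 0 ≤ N t * Real.log q := by positivity
      have h6 : L * N t = N t * Real.log p + N t * Real.log q := by rw [hL]; ring
      linarith
  have : Nonempty (Ix k h) := ⟨Sum.inl ⟨0, hk1⟩⟩
  set cc : ℝ := 1 + 4 * (k + h + 1) * L with hcc
  have hcc1 : 1 ≤ cc := by
    rw [hcc]
    have : 0 ≤ 4 * ((k : ℝ) + h + 1) * L := by positivity
    linarith
  obtain ⟨y, hy0, hy⟩ := sub (ι := Ix k h) (s := 2) (1 : Matrix (Ix k h) (Ix k h) ℤ) (by simp)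
    ![Matrix.fromBlocks 1 (Bm k h) 0 1, 1] (by
      intro w
      fin_cases w
      · simp [Matrix.det_fromBlocks_zero₂₁]
      · simp) ![p, q] (by
      intro w; fin_cases w
      · exact hp
      · exact hq) (by
      intro w w' hww
      fin_cases w <;> fin_cases w'
      · exact absurd rfl hww
      · exact hpq
      · exact hpq.symm
      · exact absurd rfl hww) (c := cc) (γ := 1) hcc1 one_pos N hN e
    (fun t l => |(x t l : ℝ)|) (by
      intro t
      have h0 := hN0 t
      have hkh : 0 ≤ ((k : ℝ) + h) * N t := by positivity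
      have hLp : Real.log p ≤ L := by rw [hL]; linarith
      have hLq : Real.log q ≤ L := by rw [hL]; linarith
      have hcN : ((k : ℝ) + h) * N t * L + (k + 1) * L * N t ≤ cc * N t := by
        rw [hcc]
        have h1 : 0 ≤ (h : ℝ) * L * N t := by positivity
        have h2 : 0 ≤ (k : ℝ) * L * N t := by positivity
        have h3 : 0 ≤ L * N t := by positivity
        nlinarith
      have hsec : 0 ≤ ((k : ℝ) + 1) * L * N t := by positivity
      refine ⟨?_, fun l => abs_pos.2 (by exact_mod_cast hx0 t l), ?_, ?_⟩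
      · intro w l
        fin_cases w
        · simp only [Fin.zero_eta, Fin.isValue, Matrix.cons_val_zero]
          calc (e t 0 l : ℝ) * Real.log p ≤ ((k + h) * N t) * L :=
                mul_le_mul (he0 t l) hLp hlp.le hkh
            _ ≤ cc * N t := by linarith
        · simp only [Fin.mk_one, Fin.isValue, Matrix.cons_val_one, Matrix.cons_val_fin_one]
          calc (e t 1 l : ℝ) * Real.log q ≤ ((k + h) * N t) * L :=
                mul_le_mul (he1 t l) hLq hlq.le hkh
            _ ≤ cc * N t := by linarith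
      · intro l
        have h1 : (1 : ℝ) ≤ |(x t l : ℝ)| := by
          have : (1 : ℤ) ≤ |x t l| := Int.one_le_abs (hx0 t l)
          exact_mod_cast this
        rw [abs_of_nonneg (Real.log_nonneg h1), hlog]
        have h2 : (e t 0 l : ℝ) * Real.log p ≤ ((k + h) * N t) * Real.log p :=
          mul_le_mul_of_nonneg_right (he0 t l) hlp.le
        have h3 : (e t 1 l : ℝ) * Real.log q ≤ ((k + h) * N t) * Real.log q :=
          mul_le_mul_of_nonneg_right (he1 t l) hlq.le
        have h4 := hgle t l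
        have h5 : ((k : ℝ) + h) * N t * L = ((k + h) * N t) * Real.log p +
          ((k + h) * N t) * Real.log q := by rw [hL]; ring
        linarith
      · rw [Fin.sum_univ_two]
        simp only [Fin.isValue, Matrix.cons_val_zero, Matrix.cons_val_one,
          Matrix.cons_val_fin_one, one_mul]
        simp only [hlog, Finset.sum_add_distrib]
        have hgs : ∑ l, g t l + N t ≤ 0 := by
          rw [Fintype.sum_sum_type]
          simp only [hg, Sum.elim_inl, Sum.elim_inr, Finset.sum_const, Finset.card_univ,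
            Fintype.card_prod, Fintype.card_fin, nsmul_eq_mul]
          have h1 : ∑ j : Fin k, (Real.log |(c t ((j : ℕ) + 1) : ℝ)| - h * (n t * Real.log p)) ≤
              ∑ _j : Fin k, (k * L * N t - h * (n t * Real.log p)) := by
            refine Finset.sum_le_sum fun j _ => ?_
            have := hclog t j (by have := j.2; omega)
            linarith
          rw [Finset.sum_const, Finset.card_univ, Fintype.card_fin, nsmul_eq_mul] at h1
          have h2 := hWlog t
          have h3 : (((k + 1) * h : ℕ) : ℝ) * Real.log |(W t : ℝ)| ≤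
              (((k + 1) * h : ℕ) : ℝ) * (n t * Real.log p - ε * N t) :=
            mul_le_mul_of_nonneg_left h2 (Nat.cast_nonneg _)
          push_cast at h3 ⊢
          have h4 : (n t : ℝ) * Real.log p ≤ N t * Real.log p :=
            mul_le_mul_of_nonneg_right (hn t) hlp.le
          have h5 : (h : ℝ) * (n t * Real.log p) ≤ h * (N t * Real.log p) :=
            mul_le_mul_of_nonneg_left h4 (Nat.cast_nonneg _)
          have h6 : (h : ℝ) * N t * (Real.log p + 1) ≤ h * N t * ((k + 1) * ε) :=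
            mul_le_mul_of_nonneg_left hk (by positivity)
          have h7 : ((k : ℝ) ^ 2 * L + 1) * N t ≤ h * N t :=
            mul_le_mul_of_nonneg_right hh h0
          nlinarith
        linarith)
    (fun t => x t) (by
      intro t h0
      have h1 := congrFun h0 (Classical.arbitrary (Ix k h))
      exact hx0 t _ h1) (by
      intro t l
      have h1 : ∑ j, (1 : Matrix (Ix k h) (Ix k h) ℤ) l j * x t j = x t l := by
        simp [Matrix.one_apply]
      rw [h1]) (by
      intro t w l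
      fin_cases w
      · simp only [Fin.zero_eta, Fin.isValue, Matrix.cons_val_zero]
        rcases l with j | a
        · rw [X_row, row_identity (by exact_mod_cast hD0 t : (D t : ℤ) ≠ 0) (hW t) (hc t)]
          simp only [he, Sum.elim_inl, if_true, pow_mul]
          exact Dvd.intro _ rfl
        · rw [X_row']
          simp only [he, Sum.elim_inr, if_true, Yc, pow_add, pow_mul]
          refine Dvd.dvd.mul_left (mul_dvd_mul (Dvd.intro _ rfl) (Dvd.intro _ rfl)) _
      · simp only [Fin.mk_one, Fin.isValue, Matrix.cons_val_one, Matrix.cons_val_fin_one]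
        have h1 : ∑ j, (1 : Matrix (Ix k h) (Ix k h) ℤ) l j * x t j = x t l := by
          simp [Matrix.one_apply]
        rw [h1]
        rcases l with j | a
        · simp only [he, hx, Sum.elim_inl, one_ne_zero, if_false, Ec, pow_add, pow_mul]
          exact mul_dvd_mul (dvd_refl _) (Dvd.intro _ rfl)
        · simp only [he, hx, Sum.elim_inr, one_ne_zero, if_false, Yc, pow_add, pow_mul]
          refine Dvd.dvd.mul_left (mul_dvd_mul (Dvd.intro_left _ rfl) (Dvd.intro_left _ rfl)) _)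
  exact ⟨y, hy0, hy⟩

end Q64.CY
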