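import Pool.Agent.Q64.CY.Gcd2

/-!
# Common divisors of `p ^ n - q ^ m` and `p ^ n' - q ^ m'` are small
-/

set_option autoImplicit false

namespace Q64.CY

open Finset Filter Topology Pool.Agent.TH461.SST

lemma gcd_seq {p q : ℕ} (hp : 2 ≤ p) (hq : 2 ≤ q) (hpq : Nat.Coprime p q)
    (n m n' m' D : ℕ → ℕ) (N : ℕ → ℝ) {ε : ℝ} (hε : 0 < ε) (hN : Tendsto N atTop atTop)
    (hn : ∀ t, (n t : ℝ) ≤ N t) (hm : ∀ t, (m t : ℝ) ≤ N t) (hn' : ∀ t, (n' t : ℝ) ≤ N t)
    (hm' : ∀ t, (m' t : ℝ) ≤ N t) (hdet : ∀ t, n t * m' t ≠ n' t * m t)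
    (hlt : ∀ t, q ^ (m t) < p ^ (n t))
    (hbig : ∀ t, ε * N t ≤ Real.log (D t)) (hD0 : ∀ t, D t ≠ 0)
    (hD : ∀ t, (D t : ℤ) ∣ (p : ℤ) ^ (n t) - (q : ℤ) ^ (m t))
    (hD' : ∀ t, (D t : ℤ) ∣ (p : ℤ) ^ (n' t) - (q : ℤ) ^ (m' t))
    (hDp : ∀ t, Nat.Coprime (D t) p) (hDq : ∀ t, Nat.Coprime (D t) q) : False := by
  classical
  choose W hW using hD
  have hc0 : ∀ t j, ∃ c : ℤ, ((p : ℤ) ^ (n' t)) ^ j - ((q : ℤ) ^ (m' t)) ^ j = D t * c := by
    intro t j
    exact (hD' t).trans (sub_dvd_pow_sub_pow _ _ j)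
  choose c hc using hc0
  obtain ⟨k0, hk0⟩ := exists_nat_ge ((Real.log p + 1) / ε)
  set k : ℕ := k0 + 1 with hkdef
  have hk : Real.log p + 1 ≤ (k + 1) * ε := by
    rw [div_le_iff₀ hε] at hk0
    rw [hkdef]
    push_cast
    nlinarith
  obtain ⟨h, hh⟩ := exists_nat_ge ((k : ℝ) ^ 2 * (Real.log p + Real.log q) + 1)
  obtain ⟨y, hy0, hy⟩ := seq_relation hp hq hpq n m n' m' D N hε hN hn hm hn' hm' hdet hlt hbig hD0
    W c hW hc (k := k) (h := h) (by omega) hk hh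
  obtain ⟨φ, hφ, hφ'⟩ := extraction_of_frequently_atTop hy
  set F : Finset (ℕ × ℕ) := (range (h + 1) ×ˢ range (k + 1)).filter (fun b => fc y b ≠ 0) with hF
  have hFne : F.Nonempty := by
    by_contra hcon
    rw [Finset.not_nonempty_iff_eq_empty, hF, Finset.filter_eq_empty_iff] at hcon
    exact hy0 (fc_zero y fun b hb => by have := hcon hb; simpa using this)
  set u : ℕ → ℕ × ℕ → ℕ := fun t b => n (φ t) * b.1 + n' (φ t) * b.2 with hu
  set v : ℕ → ℕ × ℕ → ℕ := fun t b => m (φ t) * (h - b.1) + m' (φ t) * (k - b.2) with hv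
  have hterm : ∀ t (b : ℕ × ℕ), (p : ℤ) ^ (u t b) * (q : ℤ) ^ (v t b) =
      (((p : ℤ) ^ (n (φ t))) ^ b.1 * ((q : ℤ) ^ (m (φ t))) ^ (h - b.1)) *
        (((p : ℤ) ^ (n' (φ t))) ^ b.2 * ((q : ℤ) ^ (m' (φ t))) ^ (k - b.2)) := by
    intro t b
    simp only [hu, hv, pow_add, pow_mul]
    ring
  have hrel : Rel p q F (fc y) u v := by
    intro t
    have h1 := rel_identity (hW (φ t)) (hc (φ t)) y
    rw [hφ' t, mul_zero] at h1
    rw [hF, Finset.sum_filter]
    refine Eq.trans ?_ h1.symm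
    refine Finset.sum_congr rfl fun b _ => ?_
    split_ifs with h2
    · rw [hterm]
    · rw [not_not] at h2
      rw [h2, zero_mul]
  obtain ⟨b, hb, b', hb', hbb, r, s, hrs⟩ := sunit hp hq hpq F (fc y) u v hFne
    (fun b hb => (Finset.mem_filter.1 hb).2) hrel
  have hbm := Finset.mem_product.1 (Finset.mem_filter.1 hb).1
  have hbm' := Finset.mem_product.1 (Finset.mem_filter.1 hb').1
  rw [mem_range, mem_range] at hbm hbm'
  -- `D` is bounded
  have hbound : ∃ᶠ t in atTop, D (φ t) ≤ p ^ r.natAbs * q ^ s.natAbs := by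
    refine hrs.mono fun t ht => ?_
    refine dvd_bound hp hq hpq (hDp _) (hDq _) ht.1 ht.2 ?_ ?_
    · by_contra hcon
      push Not at hcon
      obtain ⟨hr, hs⟩ := hcon
      obtain ⟨h1, h2⟩ := ht
      rw [hr] at h1
      rw [hs] at h2
      simp only [hu, hv] at h1 h2
      obtain ⟨a, i⟩ := b
      obtain ⟨a', i'⟩ := b'
      simp only at h1 h2 hbm hbm'
      push_cast [show a ≤ h by omega, show a' ≤ h by omega, show i ≤ k by omega,
        show i' ≤ k by omega] at h1 h2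
      have h3 : (n (φ t) : ℤ) * (a - a') + n' (φ t) * (i - i') = 0 := by linarith
      have h4 : (m (φ t) : ℤ) * (a - a') + m' (φ t) * (i - i') = 0 := by linarith
      have hd : (n (φ t) : ℤ) * m' (φ t) - n' (φ t) * m (φ t) ≠ 0 := by
        intro h5
        apply hdet (φ t)
        have : (n (φ t) : ℤ) * m' (φ t) = n' (φ t) * m (φ t) := by linarith
        exact_mod_cast this
      have h5 : ((n (φ t) : ℤ) * m' (φ t) - n' (φ t) * m (φ t)) * (a - a') = 0 := by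
        linear_combination (m' (φ t) : ℤ) * h3 - (n' (φ t) : ℤ) * h4
      have h6 : ((n (φ t) : ℤ) * m' (φ t) - n' (φ t) * m (φ t)) * (i - i') = 0 := by
        linear_combination (n (φ t) : ℤ) * h4 - (m (φ t) : ℤ) * h3
      have h7 := (mul_eq_zero.1 h5).resolve_left hd
      have h8 := (mul_eq_zero.1 h6).resolve_left hd
      apply hbb
      ext <;> simp only <;> omega
    · rw [hterm, hterm]
      apply (Int.modEq_iff_dvd).1
      have g1 : (q : ℤ) ^ (m (φ t)) ≡ (p : ℤ) ^ (n (φ t)) [ZMOD (D (φ t) : ℤ)] := by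
        rw [Int.modEq_iff_dvd, hW]
        exact Dvd.intro _ rfl
      have g2 : (q : ℤ) ^ (m' (φ t)) ≡ (p : ℤ) ^ (n' (φ t)) [ZMOD (D (φ t) : ℤ)] := by
        rw [Int.modEq_iff_dvd]
        exact hD' (φ t)
      have g3 : ∀ c : ℕ × ℕ, c.1 < h + 1 ∧ c.2 < k + 1 →
          (((p : ℤ) ^ (n (φ t))) ^ c.1 * ((q : ℤ) ^ (m (φ t))) ^ (h - c.1)) *
          (((p : ℤ) ^ (n' (φ t))) ^ c.2 * ((q : ℤ) ^ (m' (φ t))) ^ (k - c.2)) ≡
          ((p : ℤ) ^ (n (φ t))) ^ h * ((p : ℤ) ^ (n' (φ t))) ^ k [ZMOD (D (φ t) : ℤ)] := by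
        intro c hc
        have e1 : ((p : ℤ) ^ (n (φ t))) ^ h =
            ((p : ℤ) ^ (n (φ t))) ^ c.1 * ((p : ℤ) ^ (n (φ t))) ^ (h - c.1) := by
          rw [← pow_add]; congr 1; omega
        have e2 : ((p : ℤ) ^ (n' (φ t))) ^ k =
            ((p : ℤ) ^ (n' (φ t))) ^ c.2 * ((p : ℤ) ^ (n' (φ t))) ^ (k - c.2) := by
          rw [← pow_add]; congr 1; omega
        rw [e1, e2]
        exact ((Int.ModEq.refl _).mul (g1.pow _)).mul ((Int.ModEq.refl _).mul (g2.pow _))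
      exact (g3 b' hbm').trans (g3 b hbm).symm
  -- but `D` tends to infinity
  set K : ℕ := p ^ r.natAbs * q ^ s.natAbs with hK
  have hev : ∀ᶠ t in atTop, Real.log (K : ℝ) < ε * N (φ t) := by
    have h1 : Tendsto (fun t => ε * N (φ t)) atTop atTop :=
      (hN.comp hφ.tendsto_atTop).const_mul_atTop hε
    exact h1.eventually_gt_atTop _
  obtain ⟨t, ht1, ht2⟩ := (hbound.and_eventually hev).exists
  have h1 : Real.log (D (φ t) : ℝ) ≤ Real.log (K : ℝ) := by
    apply Real.log_le_log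
    · exact_mod_cast Nat.pos_of_ne_zero (hD0 _)
    · exact_mod_cast ht1
  have h2 := hbig (φ t)
  linarith

/-- **Common divisors of `p ^ n - q ^ m` and `p ^ n' - q ^ m'`** with `n m' ≠ n' m` are small. -/
theorem gcd_small {p q : ℕ} (hp : 2 ≤ p) (hq : 2 ≤ q) (hpq : Nat.Coprime p q) {ε : ℝ}
    (hε : 0 < ε) : ∃ N0 : ℝ, ∀ N : ℝ, N0 ≤ N → ∀ n m n' m' D : ℕ, (n : ℝ) ≤ N → (m : ℝ) ≤ N →
      (n' : ℝ) ≤ N → (m' : ℝ) ≤ N → n * m' ≠ n' * m →
      (D : ℤ) ∣ (p : ℤ) ^ n - (q : ℤ) ^ m → (D : ℤ) ∣ (p : ℤ) ^ n' - (q : ℤ) ^ m' →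
      Nat.Coprime D p → Nat.Coprime D q → Real.log D < ε * N := by
  classical
  by_contra hcon
  push Not at hcon
  choose N hNt n m n' m' D hn hm hn' hm' hdet hD hD' hDp hDq hbig using
    fun t : ℕ => hcon (t : ℝ)
  have hNlim : Tendsto N atTop atTop := tendsto_atTop_mono hNt tendsto_natCast_atTop_atTop
  have hnm : ∀ t, n t ≠ 0 ∨ m t ≠ 0 := by
    intro t
    by_contra h
    push Not at h
    exact hdet t (by rw [h.1, h.2]; simp)
  have hD0 : ∀ t, D t ≠ 0 := by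
    intro t h0
    have h1 := hD t
    rw [h0, Nat.cast_zero, zero_dvd_iff, sub_eq_zero] at h1
    exact pow_ne_pow hp hq hpq (hnm t) h1
  have hsplit : (∃ᶠ t in atTop, q ^ (m t) < p ^ (n t)) ∨ (∃ᶠ t in atTop, p ^ (n t) < q ^ (m t)) := by
    rw [← Filter.frequently_or_distrib]
    apply Filter.Frequently.of_forall
    intro t
    have h1 : p ^ (n t) ≠ q ^ (m t) := by
      intro h
      exact pow_ne_pow hp hq hpq (hnm t) (by exact_mod_cast h)
    omega
  rcases hsplit with h | h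
  · obtain ⟨φ, hφ, hφ'⟩ := extraction_of_frequently_atTop h
    exact gcd_seq hp hq hpq (fun t => n (φ t)) (fun t => m (φ t)) (fun t => n' (φ t))
      (fun t => m' (φ t)) (fun t => D (φ t)) (fun t => N (φ t)) hε (hNlim.comp hφ.tendsto_atTop)
      (fun t => hn _) (fun t => hm _) (fun t => hn' _) (fun t => hm' _) (fun t => hdet _) hφ'
      (fun t => hbig _) (fun t => hD0 _) (fun t => hD _) (fun t => hD' _) (fun t => hDp _)
      (fun t => hDq _)
  · obtain ⟨φ, hφ, hφ'⟩ := extraction_of_frequently_atTop h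
    refine gcd_seq hq hp hpq.symm (fun t => m (φ t)) (fun t => n (φ t)) (fun t => m' (φ t))
      (fun t => n' (φ t)) (fun t => D (φ t)) (fun t => N (φ t)) hε (hNlim.comp hφ.tendsto_atTop)
      (fun t => hm _) (fun t => hn _) (fun t => hm' _) (fun t => hn' _) (fun t => ?_) hφ'
      (fun t => hbig _) (fun t => hD0 _) (fun t => ?_) (fun t => ?_) (fun t => hDq _)
      (fun t => hDp _)
    · have := hdet (φ t)
      intro h1
      apply this
      rw [mul_comm (n (φ t)), mul_comm (n' (φ t))]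
      exact h1.symm
    · have := hD (φ t)
      rw [← dvd_neg, neg_sub] at this
      exact this
    · have := hD' (φ t)
      rw [← dvd_neg, neg_sub] at this
      exact this

end Q64.CY
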