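import Pool.Agent.Q64.CY.Sub

/-!
# Vanishing sums of products of powers of two coprime integers
-/

set_option autoImplicit false

namespace Q64.CY

open Finset Filter Topology Pool.Agent.TH461.SST

lemma pigeon {α : Type} [Finite α] (g : ℕ → α) : ∃ y : α, ∃ᶠ t in atTop, g t = y := by
  obtain ⟨y, hy⟩ := Finite.exists_infinite_fiber g
  refine ⟨y, ?_⟩
  rw [Nat.frequently_atTop_iff_infinite]
  exact Set.infinite_coe_iff.1 hy

variable {ι : Type} [DecidableEq ι]

/-- the identity matrix with the row `a` replaced by `f` -/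
def RM (J : Finset ι) (f : ι → ℤ) (a : ι) : Matrix J J ℤ :=
  fun l j => if (l : ι) = a then f j else if l = j then 1 else 0

lemma RM_mulVec (J : Finset ι) (f : ι → ℤ) (a : ι) (x : J → ℤ) (l : J) :
    ∑ j, RM J f a l j * x j = if (l : ι) = a then ∑ j : J, f j * x j else x l := by
  unfold RM
  split_ifs with h
  · rfl
  · simp

lemma RM_det (J : Finset ι) (f : ι → ℤ) (a : ι) (ha : f a ≠ 0) : (RM J f a).det ≠ 0 := by
  classical
  intro h
  obtain ⟨x, hx0, hx⟩ := Matrix.exists_mulVec_eq_zero_iff.2 h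
  apply hx0
  have h1 : ∀ l : J, (if (l : ι) = a then ∑ j : J, f j * x j else x l) = 0 := by
    intro l
    rw [← RM_mulVec]
    exact congrFun hx l
  have h2 : ∀ l : J, (l : ι) ≠ a → x l = 0 := by
    intro l hl
    have := h1 l
    rwa [if_neg hl] at this
  funext l
  by_cases hl : (l : ι) = a
  · have h3 := h1 l
    rw [if_pos hl, Finset.sum_eq_single l] at h3
    · rw [hl] at h3
      rcases mul_eq_zero.1 h3 with h4 | h4
      · exact absurd h4 ha
      · exact h4
    · intro j _ hj
      rw [h2 j (fun h4 => hj (Subtype.ext (h4.trans hl.symm))), mul_zero]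
    · intro h4
      exact absurd (Finset.mem_univ _) h4
  · exact h2 l hl

/-- the conclusion -/
def Concl (F : Finset ι) (u v : ℕ → ι → ℕ) : Prop :=
  ∃ i ∈ F, ∃ j ∈ F, i ≠ j ∧ ∃ r s : ℤ, ∃ᶠ t in atTop,
    (u t i : ℤ) - u t j = r ∧ (v t i : ℤ) - v t j = s

lemma Concl.of_sub {F : Finset ι} {u v : ℕ → ι → ℕ} {φ : ℕ → ℕ} (hφ : StrictMono φ)
    (h : Concl F (fun t => u (φ t)) (fun t => v (φ t))) : Concl F u v := by
  obtain ⟨i, hi, j, hj, hij, r, s, h⟩ := h
  exact ⟨i, hi, j, hj, hij, r, s, hφ.tendsto_atTop.frequently h⟩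

lemma Concl.mono {F G : Finset ι} (hFG : G ⊆ F) {u v : ℕ → ι → ℕ} (h : Concl G u v) :
    Concl F u v := by
  obtain ⟨i, hi, j, hj, hij, r, s, h⟩ := h
  exact ⟨i, hFG hi, j, hFG hj, hij, r, s, h⟩

/-- the relation -/
def Rel (p q : ℕ) (F : Finset ι) (f : ι → ℤ) (u v : ℕ → ι → ℕ) : Prop :=
  ∀ t, ∑ i ∈ F, f i * ((p : ℤ) ^ (u t i) * (q : ℤ) ^ (v t i)) = 0

lemma bounded_case {F : Finset ι} (hF : 1 < F.card) {u v : ℕ → ι → ℕ} {a b : ι}
    (ha : ∀ t, ∀ i ∈ F, u t a ≤ u t i) (hb : ∀ t, ∀ i ∈ F, v t b ≤ v t i) (B : ℕ)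
    (h : ∃ᶠ t in atTop, ∀ i ∈ F, u t i - u t a ≤ B ∧ v t i - v t b ≤ B) : Concl F u v := by
  obtain ⟨i, hi, j, hj, hij⟩ := Finset.one_lt_card.1 hF
  obtain ⟨φ, hφ, hφ'⟩ := extraction_of_frequently_atTop h
  let g : ℕ → (Fin (B + 1) × Fin (B + 1)) × (Fin (B + 1) × Fin (B + 1)) := fun t =>
    ((⟨u (φ t) i - u (φ t) a, by have := (hφ' t i hi).1; omega⟩,
      ⟨u (φ t) j - u (φ t) a, by have := (hφ' t j hj).1; omega⟩),
     (⟨v (φ t) i - v (φ t) b, by have := (hφ' t i hi).2; omega⟩,
      ⟨v (φ t) j - v (φ t) b, by have := (hφ' t j hj).2; omega⟩))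
  obtain ⟨y, hy⟩ := pigeon g
  apply Concl.of_sub hφ
  refine ⟨i, hi, j, hj, hij, (y.1.1 : ℤ) - (y.1.2 : ℕ), (y.2.1 : ℤ) - (y.2.2 : ℕ),
    hy.mono fun t ht => ?_⟩
  have e1 : ((y.1.1 : ℕ) : ℤ) = (u (φ t) i - u (φ t) a : ℕ) := by rw [← ht]
  have e2 : ((y.1.2 : ℕ) : ℤ) = (u (φ t) j - u (φ t) a : ℕ) := by rw [← ht]
  have e3 : ((y.2.1 : ℕ) : ℤ) = (v (φ t) i - v (φ t) b : ℕ) := by rw [← ht]
  have e4 : ((y.2.2 : ℕ) : ℤ) = (v (φ t) j - v (φ t) b : ℕ) := by rw [← ht]
  have k1 := ha (φ t) i hi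
  have k2 := ha (φ t) j hj
  have k3 := hb (φ t) i hi
  have k4 := hb (φ t) j hj
  rw [e1, e2, e3, e4]
  push_cast [k1, k2, k3, k4]
  constructor <;> ring


lemma sum_ite_row (J : Finset ι) (a c : ι) (hc : c ∉ J) (haJ : a ∈ insert c J) (U : ι → ℝ)
    (hU : U a = 0) : ∑ l : J, (if (l : ι) = a then U c else U l) = ∑ l : J, U l + U c := by
  rw [Finset.sum_coe_sort J (fun l => if l = a then U c else U l), Finset.sum_coe_sort J U]
  rcases Finset.mem_insert.1 haJ with h | h
  · subst h
    rw [hU, add_zero]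
    refine Finset.sum_congr rfl fun l hl => ?_
    rw [if_neg]
    intro h; rw [h] at hl; exact hc hl
  · rw [← Finset.add_sum_erase J _ h, ← Finset.add_sum_erase J U h, if_pos rfl, hU, zero_add,
      add_comm]
    congr 1
    refine Finset.sum_congr rfl fun l hl => ?_
    rw [if_neg (Finset.ne_of_mem_erase hl)]

lemma growth_case {p q : ℕ} (hp : 2 ≤ p) (hq : 2 ≤ q) (hpq : Nat.Coprime p q) {F : Finset ι}
    (hF : 1 < F.card) {u v : ℕ → ι → ℕ} {f : ι → ℤ} (hf : ∀ i ∈ F, f i ≠ 0)
    (hrel : Rel p q F f u v) {a b c : ι} (haF : a ∈ F) (hbF : b ∈ F) (hcF : c ∈ F)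
    (ha : ∀ t, ∀ i ∈ F, u t a ≤ u t i) (hb : ∀ t, ∀ i ∈ F, v t b ≤ v t i)
    (hc : ∀ t, ∀ i ∈ F, ((u t i - u t a : ℕ) : ℝ) * Real.log p + ((v t i - v t b : ℕ) : ℝ) * Real.log q
      ≤ ((u t c - u t a : ℕ) : ℝ) * Real.log p + ((v t c - v t b : ℕ) : ℝ) * Real.log q)
    (hN : Tendsto (fun t => ((u t c - u t a : ℕ) : ℝ) * Real.log p +
      ((v t c - v t b : ℕ) : ℝ) * Real.log q) atTop atTop)
    (IH : ∀ G ⊂ F, ∀ (f' : ι → ℤ) (u' v' : ℕ → ι → ℕ), G.Nonempty → (∀ i ∈ G, f' i ≠ 0) →
      Rel p q G f' u' v' → Concl G u' v') : Concl F u v := by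
  classical
  have hp0 : (0 : ℝ) < p := by exact_mod_cast (by omega : 0 < p)
  have hq0 : (0 : ℝ) < q := by exact_mod_cast (by omega : 0 < q)
  have hlp : 0 < Real.log p := Real.log_pos (by exact_mod_cast (by omega : 1 < p))
  have hlq : 0 < Real.log q := Real.log_pos (by exact_mod_cast (by omega : 1 < q))
  set J : Finset ι := F.erase c with hJ
  have hcJ : c ∉ J := Finset.notMem_erase c F
  have hins : insert c J = F := Finset.insert_erase hcF
  have hJne : J.Nonempty := by
    rw [← Finset.card_pos, hJ, Finset.card_erase_of_mem hcF]; omega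
  have : Nonempty J := hJne.coe_sort
  have hJF : ∀ l : J, (l : ι) ∈ F := fun l => Finset.mem_of_mem_erase l.2
  set x : ℕ → ι → ℤ := fun t l => (p : ℤ) ^ (u t l - u t a) * (q : ℤ) ^ (v t l - v t b) with hx
  have hxpos : ∀ t l, 0 < x t l := by
    intro t l
    have h1 : (0 : ℤ) < p := by exact_mod_cast (by omega : 0 < p)
    have h2 : (0 : ℤ) < q := by exact_mod_cast (by omega : 0 < q)
    simp only [hx]; positivity
  have hxM : ∀ t, ∀ l ∈ F, (p : ℤ) ^ (u t a) * (q : ℤ) ^ (v t b) * x t l =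
      (p : ℤ) ^ (u t l) * (q : ℤ) ^ (v t l) := by
    intro t l hl
    have h1 : u t a + (u t l - u t a) = u t l := by have := ha t l hl; omega
    have h2 : v t b + (v t l - v t b) = v t l := by have := hb t l hl; omega
    simp only [hx]
    rw [← h1, ← h2, pow_add, pow_add]
    simp only [Nat.add_sub_cancel_left]
    ring
  have hpa : ∀ t, (p : ℤ) ^ (u t a) * (q : ℤ) ^ (v t b) ≠ 0 := by
    intro t
    have h1 : (0 : ℤ) < p := by exact_mod_cast (by omega : 0 < p)
    have h2 : (0 : ℤ) < q := by exact_mod_cast (by omega : 0 < q)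
    positivity
  have hrelx : ∀ t, ∑ i ∈ F, f i * x t i = 0 := by
    intro t
    have h1 := hrel t
    have h2 : (p : ℤ) ^ (u t a) * (q : ℤ) ^ (v t b) * ∑ i ∈ F, f i * x t i = 0 := by
      rw [Finset.mul_sum, ← h1]
      refine Finset.sum_congr rfl fun i hi => ?_
      rw [← hxM t i hi]; ring
    rcases mul_eq_zero.1 h2 with h3 | h3
    · exact absurd h3 (hpa t)
    · exact h3
  have hrelJ : ∀ t, ∑ j : J, f j * x t j = -(f c * x t c) := by
    intro t
    have h1 := hrelx t
    rw [← hins, Finset.sum_insert hcJ] at h1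
    rw [Finset.sum_coe_sort J (fun j => f j * x t j)]
    linarith
  have hlogx : ∀ t l, Real.log (x t l : ℝ) = ((u t l - u t a : ℕ) : ℝ) * Real.log p +
      ((v t l - v t b : ℕ) : ℝ) * Real.log q := by
    intro t l
    simp only [hx]
    push_cast
    rw [Real.log_mul (by positivity) (by positivity), Real.log_pow, Real.log_pow]
  have hUnn : ∀ t l, 0 ≤ ((u t l - u t a : ℕ) : ℝ) * Real.log p := fun t l => by positivity
  have hVnn : ∀ t l, 0 ≤ ((v t l - v t b : ℕ) : ℝ) * Real.log q := fun t l => by positivity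
  obtain ⟨y, hy0, hy⟩ := sub (ι := J) (s := 2) (1 : Matrix J J ℤ) (by simp)
    ![RM J f a, RM J f b] (by
      intro w
      fin_cases w
      · exact RM_det J f a (hf a haF)
      · exact RM_det J f b (hf b hbF)) ![p, q] (by
      intro w; fin_cases w
      · exact hp
      · exact hq) (by
      intro w w' hww
      fin_cases w <;> fin_cases w'
      · exact absurd rfl hww
      · exact hpq
      · exact hpq.symm
      · exact absurd rfl hww) (c := 1) (γ := 1) le_rfl one_pos
    (fun t => ((u t c - u t a : ℕ) : ℝ) * Real.log p + ((v t c - v t b : ℕ) : ℝ) * Real.log q) hN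
    (fun t w l => if w = 0 then (if (l : ι) = a then u t c - u t a else u t l - u t a)
      else (if (l : ι) = b then v t c - v t b else v t l - v t b))
    (fun t l => (x t l : ℝ)) (by
      intro t
      refine ⟨?_, fun l => (by have := hxpos t l; exact_mod_cast this : (0 : ℝ) < (x t l : ℝ)), ?_, ?_⟩
      · intro w l
        fin_cases w
        · simp only [Fin.zero_eta, Fin.isValue, if_true, Matrix.cons_val_zero, one_mul]
          split_ifs
          · have := hVnn t c; linarith
          · have h1 := hc t l (hJF l); have := hVnn t l; linarith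
        · simp only [Fin.mk_one, Fin.isValue, one_ne_zero, if_false, Matrix.cons_val_one,
            Matrix.cons_val_fin_one, one_mul]
          split_ifs
          · have := hUnn t c; linarith
          · have h1 := hc t l (hJF l); have := hUnn t l; linarith
      · intro l
        rw [hlogx, abs_of_nonneg (add_nonneg (hUnn t l) (hVnn t l)), one_mul]
        exact hc t l (hJF l)
      · rw [Fin.sum_univ_two]
        simp only [Fin.isValue, if_true, Matrix.cons_val_zero, one_ne_zero, if_false,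
          Matrix.cons_val_one, Matrix.cons_val_fin_one]
        have e1 : ∑ l : J, (((if (l : ι) = a then u t c - u t a else u t l - u t a : ℕ)) : ℝ) *
            Real.log p = ∑ l : J, ((u t l - u t a : ℕ) : ℝ) * Real.log p +
              ((u t c - u t a : ℕ) : ℝ) * Real.log p := by
          rw [← sum_ite_row J a c hcJ (by rw [hins]; exact haF)
            (fun l => ((u t l - u t a : ℕ) : ℝ) * Real.log p) (by simp)]
          refine Finset.sum_congr rfl fun l _ => ?_
          split_ifs <;> rfl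
        have e2 : ∑ l : J, (((if (l : ι) = b then v t c - v t b else v t l - v t b : ℕ)) : ℝ) *
            Real.log q = ∑ l : J, ((v t l - v t b : ℕ) : ℝ) * Real.log q +
              ((v t c - v t b : ℕ) : ℝ) * Real.log q := by
          rw [← sum_ite_row J b c hcJ (by rw [hins]; exact hbF)
            (fun l => ((v t l - v t b : ℕ) : ℝ) * Real.log q) (by simp)]
          refine Finset.sum_congr rfl fun l _ => ?_
          split_ifs <;> rfl
        rw [e1, e2]
        simp only [hlogx, Finset.sum_add_distrib]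
        linarith)
    (fun t l => x t l) (by
      intro t h
      have h1 := congrFun h (Classical.arbitrary J)
      exact (hxpos t _).ne' h1) (by
      intro t l
      have h1 : ∑ j : J, (1 : Matrix J J ℤ) l j * x t j = x t l := by
        simp [Matrix.one_apply]
      rw [h1, abs_of_pos (by exact_mod_cast hxpos t l)]) (by
      intro t w l
      fin_cases w
      · simp only [Fin.zero_eta, Fin.isValue, if_true, Matrix.cons_val_zero]
        rw [RM_mulVec, hrelJ]
        split_ifs
        · rw [dvd_neg]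
          exact Dvd.dvd.mul_left (Dvd.intro _ rfl) _
        · exact Dvd.intro _ rfl
      · simp only [Fin.mk_one, Fin.isValue, one_ne_zero, if_false, Matrix.cons_val_one,
          Matrix.cons_val_fin_one]
        rw [RM_mulVec, hrelJ]
        split_ifs
        · rw [dvd_neg]
          exact Dvd.dvd.mul_left (Dvd.intro_left _ rfl) _
        · exact Dvd.intro_left _ rfl)
  obtain ⟨φ, hφ, hφ'⟩ := extraction_of_frequently_atTop hy
  set y' : ι → ℤ := fun i => if h : i ∈ J then y ⟨i, h⟩ else 0 with hy'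
  set G : Finset ι := J.filter (fun i => y' i ≠ 0) with hG
  have hGJ : G ⊆ J := Finset.filter_subset _ _
  have hGF : G ⊂ F := by
    refine ⟨hGJ.trans (Finset.erase_subset _ _), fun h => ?_⟩
    exact hcJ (hGJ (h hcF))
  have hGne : G.Nonempty := by
    by_contra h
    rw [Finset.not_nonempty_iff_eq_empty] at h
    apply hy0
    funext l
    by_contra hl
    have h1 : (l : ι) ∈ G := by
      rw [hG, Finset.mem_filter]
      refine ⟨l.2, ?_⟩
      simp only [hy', l.2, dite_true]
      exact hl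
    rw [h] at h1
    simp at h1
  have hrelG : Rel p q G y' (fun t => u (φ t)) (fun t => v (φ t)) := by
    intro t
    have h1 := hφ' t
    have h2 : ∑ l : J, y l * x (φ t) l = ∑ i ∈ J, y' i * x (φ t) i := by
      rw [← Finset.sum_coe_sort J (fun i => y' i * x (φ t) i)]
      refine Finset.sum_congr rfl fun l _ => ?_
      simp only [hy', l.2, dite_true]
    rw [h2] at h1
    have h3 : ∑ i ∈ G, y' i * x (φ t) i = 0 := by
      rw [← h1, hG, Finset.sum_filter]
      refine Finset.sum_congr rfl fun i _ => ?_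
      split_ifs with h4
      · rfl
      · rw [not_not] at h4; rw [h4, zero_mul]
    have h4 : ∑ i ∈ G, y' i * ((p : ℤ) ^ (u (φ t) i) * (q : ℤ) ^ (v (φ t) i)) =
        (p : ℤ) ^ (u (φ t) a) * (q : ℤ) ^ (v (φ t) b) * ∑ i ∈ G, y' i * x (φ t) i := by
      rw [Finset.mul_sum]
      refine Finset.sum_congr rfl fun i hi => ?_
      rw [← hxM (φ t) i (Finset.mem_of_mem_erase (hGJ hi))]; ring
    rw [h4, h3, mul_zero]
  have hfin := IH G hGF y' (fun t => u (φ t)) (fun t => v (φ t)) hGne
    (fun i hi => (Finset.mem_filter.1 hi).2) hrelG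
  exact (Concl.of_sub hφ hfin).mono hGF.1

/-- **Vanishing sums of products of powers of `p` and `q`**: two of the terms have a constant
ratio along a subsequence. -/
theorem sunit {p q : ℕ} (hp : 2 ≤ p) (hq : 2 ≤ q) (hpq : Nat.Coprime p q) :
    ∀ (F : Finset ι) (f : ι → ℤ) (u v : ℕ → ι → ℕ), F.Nonempty → (∀ i ∈ F, f i ≠ 0) →
      Rel p q F f u v → Concl F u v := by
  classical
  intro F
  induction F using Finset.strongInduction with
  | H F IH =>
    intro f u v hne hf hrel
    have hp0 : (0 : ℤ) < p := by exact_mod_cast (by omega : 0 < p)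
    have hq0 : (0 : ℤ) < q := by exact_mod_cast (by omega : 0 < q)
    have hlp : 0 < Real.log p := Real.log_pos (by exact_mod_cast (by omega : 1 < p))
    have hlq : 0 < Real.log q := Real.log_pos (by exact_mod_cast (by omega : 1 < q))
    have hF : 1 < F.card := by
      by_contra h
      have h1 : F.card = 1 := by
        have := Finset.card_pos.2 hne
        omega
      obtain ⟨i, hi⟩ := Finset.card_eq_one.1 h1
      have h2 := hrel 0
      rw [hi, Finset.sum_singleton] at h2
      have h3 : f i ≠ 0 := hf i (by rw [hi]; simp)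
      have h4 : (p : ℤ) ^ (u 0 i) * (q : ℤ) ^ (v 0 i) ≠ 0 := by positivity
      exact mul_ne_zero h3 h4 h2
    have h1 : ∀ t, ∃ g : F × F × F, (∀ i ∈ F, u t g.1 ≤ u t i) ∧ (∀ i ∈ F, v t g.2.1 ≤ v t i) ∧
        ∀ i ∈ F, (u t i : ℝ) * Real.log p + (v t i : ℝ) * Real.log q ≤
          (u t g.2.2 : ℝ) * Real.log p + (v t g.2.2 : ℝ) * Real.log q := by
      intro t
      obtain ⟨a, haF, ha⟩ := Finset.exists_min_image F (u t) hne
      obtain ⟨b, hbF, hb⟩ := Finset.exists_min_image F (v t) hne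
      obtain ⟨c, hcF, hc⟩ := Finset.exists_max_image F
        (fun i => (u t i : ℝ) * Real.log p + (v t i : ℝ) * Real.log q) hne
      exact ⟨(⟨a, haF⟩, ⟨b, hbF⟩, ⟨c, hcF⟩), ha, hb, hc⟩
    choose g hg1 hg2 hg3 using h1
    obtain ⟨y, hy⟩ := pigeon g
    obtain ⟨φ, hφ, hφ'⟩ := extraction_of_frequently_atTop hy
    apply Concl.of_sub hφ
    obtain ⟨⟨a, haF⟩, ⟨b, hbF⟩, ⟨c, hcF⟩⟩ := y
    have ha : ∀ t, ∀ i ∈ F, u (φ t) a ≤ u (φ t) i := by
      intro t i hi
      have := hg1 (φ t) i hi
      rwa [hφ' t] at this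
    have hb : ∀ t, ∀ i ∈ F, v (φ t) b ≤ v (φ t) i := by
      intro t i hi
      have := hg2 (φ t) i hi
      rwa [hφ' t] at this
    have hc0 : ∀ t, ∀ i ∈ F, (u (φ t) i : ℝ) * Real.log p + (v (φ t) i : ℝ) * Real.log q ≤
          (u (φ t) c : ℝ) * Real.log p + (v (φ t) c : ℝ) * Real.log q := by
      intro t i hi
      have := hg3 (φ t) i hi
      rwa [hφ' t] at this
    have hc : ∀ t, ∀ i ∈ F, ((u (φ t) i - u (φ t) a : ℕ) : ℝ) * Real.log p +
        ((v (φ t) i - v (φ t) b : ℕ) : ℝ) * Real.log q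
        ≤ ((u (φ t) c - u (φ t) a : ℕ) : ℝ) * Real.log p +
          ((v (φ t) c - v (φ t) b : ℕ) : ℝ) * Real.log q := by
      intro t i hi
      rw [Nat.cast_sub (ha t i hi), Nat.cast_sub (hb t i hi), Nat.cast_sub (ha t c hcF),
        Nat.cast_sub (hb t c hcF)]
      have := hc0 t i hi
      linarith
    by_cases hN : Tendsto (fun t => ((u (φ t) c - u (φ t) a : ℕ) : ℝ) * Real.log p +
        ((v (φ t) c - v (φ t) b : ℕ) : ℝ) * Real.log q) atTop atTop
    · exact growth_case hp hq hpq hF hf (u := fun t => u (φ t)) (v := fun t => v (φ t))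
        (fun t => hrel (φ t)) haF hbF hcF ha hb hc hN IH
    · rw [tendsto_atTop] at hN
      push Not at hN
      obtain ⟨C, hC⟩ := hN
      obtain ⟨B, hB⟩ := exists_nat_ge (max (C / Real.log p) (C / Real.log q))
      refine bounded_case hF (u := fun t => u (φ t)) (v := fun t => v (φ t)) ha hb B ?_
      refine hC.mono fun t ht i hi => ?_
      have h2 := hc t i hi
      have h3 : 0 ≤ ((u (φ t) i - u (φ t) a : ℕ) : ℝ) * Real.log p := by positivity
      have h4 : 0 ≤ ((v (φ t) i - v (φ t) b : ℕ) : ℝ) * Real.log q := by positivity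
      constructor
      · have h5 : ((u (φ t) i - u (φ t) a : ℕ) : ℝ) ≤ B := by
          refine le_trans ?_ ((le_max_left _ _).trans hB)
          rw [le_div_iff₀ hlp]
          linarith
        exact_mod_cast h5
      · have h5 : ((v (φ t) i - v (φ t) b : ℕ) : ℝ) ≤ B := by
          refine le_trans ?_ ((le_max_right _ _).trans hB)
          rw [le_div_iff₀ hlq]
          linarith
        exact_mod_cast h5

end Q64.CY
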